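import Mathlib

/-!
# Juntas and random rectangular restrictions: counting lemmas
-/

set_option autoImplicit false

namespace Pool.Agent.V5helper73.OA

open Finset

/-- The Boolean function `f` depends on at most `B` of its variables. -/
def Junta {V : Type} (B : ℕ) (f : (V → Bool) → Bool) : Prop :=
  ∃ Q : Finset V, Q.card ≤ B ∧ ∀ s t : V → Bool, (∀ q ∈ Q, s q = t q) → f s = f t

theorem Junta.mono {V : Type} {B B' : ℕ} {f : (V → Bool) → Bool} (h : Junta B f) (hB : B ≤ B') :
    Junta B' f := by
  obtain ⟨Q, h1, h2⟩ := h
  exact ⟨Q, h1.trans hB, h2⟩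

/-- One stage of a random restriction. The rows are `X × Fin m` and the columns `Y × Fin m`; of each
block `{β} × Fin m` of rows (columns) one is chosen, and the entries outside of the chosen rows and
columns get fixed values. -/
abbrev Stage (X Y : Type) (m : ℕ) : Type :=
  (X → Fin m) × ((Y → Fin m) × ((X × Fin m) × (Y × Fin m) → Bool))

/-- The matrix that is obtained from the matrix `t` of the remaining variables. -/
def sub {X Y : Type} {m : ℕ} (ρ : Stage X Y m) (t : X × Y → Bool) :
    (X × Fin m) × (Y × Fin m) → Bool := fun v =>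
  if ρ.1 v.1.1 = v.1.2 ∧ ρ.2.1 v.2.1 = v.2.2 then t (v.1.1, v.2.1) else ρ.2.2 v

section counting

open Classical

/-- The number of the elements with the property `p`. -/
noncomputable def cnt {α : Type} (p : α → Prop) : ℕ := Nat.card {a // p a}

theorem cnt_eq {α : Type} [Fintype α] (p : α → Prop) [DecidablePred p] :
    cnt p = (univ.filter p).card := by
  unfold cnt
  rw [Nat.card_eq_fintype_card, Fintype.card_subtype]

theorem cnt_mono {α : Type} [Finite α] {p q : α → Prop} (h : ∀ a, p a → q a) :
    cnt p ≤ cnt q := by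
  have := Fintype.ofFinite α
  rw [cnt_eq, cnt_eq]
  apply Finset.card_le_card
  intro a ha
  exact mem_filter.mpr ⟨mem_univ _, h a (mem_filter.mp ha).2⟩

theorem cnt_or {α : Type} [Finite α] (p q : α → Prop) :
    cnt (fun a => p a ∨ q a) ≤ cnt p + cnt q := by
  have := Fintype.ofFinite α
  rw [cnt_eq, cnt_eq, cnt_eq]
  refine le_trans (Finset.card_le_card ?_) (Finset.card_union_le _ _)
  intro a ha
  rw [mem_union]
  rcases (mem_filter.mp ha).2 with h | h
  · left; exact mem_filter.mpr ⟨mem_univ _, h⟩
  · right; exact mem_filter.mpr ⟨mem_univ _, h⟩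

theorem cnt_exists {α ι : Type} [Finite α] [Fintype ι] (p : ι → α → Prop) :
    cnt (fun a => ∃ i, p i a) ≤ ∑ i, cnt (p i) := by
  have := Fintype.ofFinite α
  rw [cnt_eq]
  have h : ∀ i, cnt (p i) = (univ.filter (p i)).card := fun i => cnt_eq _
  rw [Finset.sum_congr rfl (fun i _ => h i)]
  refine le_trans (Finset.card_le_card ?_) Finset.card_biUnion_le
  intro a ha
  obtain ⟨i, hi⟩ := (mem_filter.mp ha).2
  rw [mem_biUnion]
  exact ⟨i, mem_univ _, mem_filter.mpr ⟨mem_univ _, hi⟩⟩

theorem cnt_le_card {α : Type} [Finite α] (p : α → Prop) : cnt p ≤ Nat.card α := by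
  have := Fintype.ofFinite α
  rw [cnt_eq, Nat.card_eq_fintype_card]
  exact Finset.card_le_univ _

theorem cnt_prod {α β : Type} [Fintype α] [Finite β] (p : α × β → Prop) :
    cnt p = ∑ a : α, cnt (fun b => p (a, b)) := by
  have := Fintype.ofFinite β
  rw [cnt_eq]
  have h : ∀ a, cnt (fun b => p (a, b)) = (univ.filter (fun b => p (a, b))).card :=
    fun a => cnt_eq _
  rw [Finset.sum_congr rfl (fun a _ => h a)]
  simp only [Finset.card_filter]
  rw [Fintype.sum_prod_type]

theorem card_fiber {α β : Type} [Finite α] [Finite β] (p : α × β → Prop) (A D : ℕ)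
    (h : ∀ a, cnt (fun b => p (a, b)) * A ≤ D * Nat.card β) :
    cnt p * A ≤ D * Nat.card (α × β) := by
  have := Fintype.ofFinite α
  rw [cnt_prod, Finset.sum_mul, Nat.card_prod, Nat.card_eq_fintype_card (α := α)]
  calc ∑ a : α, cnt (fun b => p (a, b)) * A ≤ ∑ a : α, D * Nat.card β :=
        Finset.sum_le_sum (fun a _ => h a)
    _ = D * (Fintype.card α * Nat.card β) := by
        rw [Finset.sum_const, Finset.card_univ, smul_eq_mul]; ring

theorem card_fiber' {α β : Type} [Finite α] [Finite β] (p : α × β → Prop) (A D : ℕ)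
    (h : ∀ b, cnt (fun a => p (a, b)) * A ≤ D * Nat.card α) :
    cnt p * A ≤ D * Nat.card (α × β) := by
  have := Fintype.ofFinite α
  have := Fintype.ofFinite β
  have h1 : cnt p = ∑ b : β, cnt (fun a => p (a, b)) := by
    rw [cnt_prod]
    have h : ∀ a, cnt (fun b => p (a, b)) = (univ.filter (fun b => p (a, b))).card :=
      fun a => cnt_eq _
    have h' : ∀ b, cnt (fun a => p (a, b)) = (univ.filter (fun a => p (a, b))).card :=
      fun a => cnt_eq _
    rw [Finset.sum_congr rfl (fun a _ => h a), Finset.sum_congr rfl (fun b _ => h' b)]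
    simp only [Finset.card_filter]
    rw [Finset.sum_comm]
  rw [h1, Finset.sum_mul, Nat.card_prod, Nat.card_eq_fintype_card (α := β)]
  calc ∑ b : β, cnt (fun a => p (a, b)) * A ≤ ∑ b : β, D * Nat.card α :=
        Finset.sum_le_sum (fun a _ => h a)
    _ = D * (Nat.card α * Fintype.card β) := by
        rw [Finset.sum_const, Finset.card_univ, smul_eq_mul]; ring

/-- The number of choices for which given lines are all chosen. -/
theorem card_all_star {X : Type} [Fintype X] {m : ℕ} (S : Finset (X × Fin m)) :
    cnt (fun x : X → Fin m => ∀ l ∈ S, x l.1 = l.2) * m ^ S.card ≤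
      m ^ Fintype.card X := by
  rw [cnt_eq]
  rcases (univ.filter (fun x : X → Fin m => ∀ l ∈ S, x l.1 = l.2)).eq_empty_or_nonempty with he | ⟨x0, hx0⟩
  · rw [he]; simp
  · rw [mem_filter] at hx0
    have hx0 := hx0.2
    have hinj : (S.image Prod.fst).card = S.card := by
      apply Finset.card_image_of_injOn
      intro a ha b hb hab
      have h1 := hx0 a ha
      have h2 := hx0 b hb
      have h3 : a.1 = b.1 := hab
      apply Prod.ext h3
      rw [← h1, ← h2, h3]
    have hsub : (univ.filter (fun x : X → Fin m => ∀ l ∈ S, x l.1 = l.2)) ⊆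
        Fintype.piFinset (fun β => if β ∈ S.image Prod.fst then {x0 β} else univ) := by
      intro x hx
      rw [mem_filter] at hx
      rw [Fintype.mem_piFinset]
      intro β
      by_cases hβ : β ∈ S.image Prod.fst
      · rw [if_pos hβ, mem_singleton]
        rw [mem_image] at hβ
        obtain ⟨l, hl, rfl⟩ := hβ
        rw [hx.2 l hl, hx0 l hl]
      · rw [if_neg hβ]; exact mem_univ _
    have hcard := Finset.card_le_card hsub
    rw [Fintype.card_piFinset] at hcard
    have h4 : ∏ β : X, (if β ∈ S.image Prod.fst then ({x0 β} : Finset (Fin m)) else univ).card =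
        m ^ (Fintype.card X - S.card) := by
      have h5 : ∀ β : X, (if β ∈ S.image Prod.fst then ({x0 β} : Finset (Fin m)) else univ).card =
          if β ∈ S.image Prod.fst then 1 else m := by
        intro β
        split_ifs
        · simp
        · simp
      rw [Finset.prod_congr rfl (fun β _ => h5 β), Finset.prod_ite, Finset.prod_const_one, one_mul,
        Finset.prod_const]
      congr 1
      have h6 : (univ.filter (fun β => β ∉ S.image Prod.fst)) = (S.image Prod.fst)ᶜ := by
        ext β; simp
      rw [h6, Finset.card_compl, hinj]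
    rw [h4] at hcard
    have h7 : S.card ≤ Fintype.card X := by
      rw [← hinj]; exact Finset.card_le_univ _
    calc _ ≤ m ^ (Fintype.card X - S.card) * m ^ S.card := Nat.mul_le_mul_right _ hcard
      _ = m ^ Fintype.card X := by rw [← pow_add, Nat.sub_add_cancel h7]

/-- Few of the lines of a small set are chosen. -/
theorem card_many_star {X : Type} [Fintype X] {m : ℕ} (L : Finset (X × Fin m)) (r : ℕ) :
    cnt (fun x : X → Fin m =>
      r ≤ (L.filter (fun l => x l.1 = l.2)).card) * m ^ r ≤
      L.card ^ r * Nat.card (X → Fin m) := by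
  rw [cnt_eq, Nat.card_eq_fintype_card]
  have hsub : (univ.filter (fun x : X → Fin m =>
      r ≤ (L.filter (fun l => x l.1 = l.2)).card)) ⊆
      (powersetCard r L).biUnion (fun S => univ.filter (fun x : X → Fin m => ∀ l ∈ S, x l.1 = l.2)) := by
    intro x hx
    rw [mem_filter] at hx
    obtain ⟨S, hS, hScard⟩ := Finset.exists_subset_card_eq hx.2
    rw [mem_biUnion]
    refine ⟨S, ?_, ?_⟩
    · rw [mem_powersetCard]
      exact ⟨hS.trans (filter_subset _ _), hScard⟩
    · rw [mem_filter]
      refine ⟨mem_univ _, fun l hl => ?_⟩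
      have := hS hl
      rw [mem_filter] at this
      exact this.2
  have h1 : (univ.filter (fun x : X → Fin m =>
      r ≤ (L.filter (fun l => x l.1 = l.2)).card)).card ≤
      ∑ S ∈ powersetCard r L, (univ.filter (fun x : X → Fin m => ∀ l ∈ S, x l.1 = l.2)).card :=
    (Finset.card_le_card hsub).trans Finset.card_biUnion_le
  calc _ ≤ (∑ S ∈ powersetCard r L,
        (univ.filter (fun x : X → Fin m => ∀ l ∈ S, x l.1 = l.2)).card) * m ^ r :=
        Nat.mul_le_mul_right _ h1
    _ = ∑ S ∈ powersetCard r L,
        (univ.filter (fun x : X → Fin m => ∀ l ∈ S, x l.1 = l.2)).card * m ^ r := by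
        rw [Finset.sum_mul]
    _ ≤ ∑ S ∈ powersetCard r L, m ^ Fintype.card X := by
        apply Finset.sum_le_sum
        intro S hS
        rw [mem_powersetCard] at hS
        have := card_all_star S
        rw [cnt_eq] at this
        rwa [hS.2] at this
    _ = (L.card.choose r) * m ^ Fintype.card X := by
        rw [Finset.sum_const, Finset.card_powersetCard, smul_eq_mul]
    _ ≤ L.card ^ r * Fintype.card (X → Fin m) := by
        rw [Fintype.card_fun, Fintype.card_fin]
        exact Nat.mul_le_mul_right _ (Nat.choose_le_pow _ _)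

/-- Functions of few variables with disjoint sets of variables that are not identically false. -/
theorem card_unsat {V ι : Type} [Fintype V] (b : ℕ) (T : ι → Finset V)
    (g : ι → (V → Bool) → Bool) (S : Finset ι)
    (hT : ∀ a ∈ S, (T a).card ≤ b)
    (hd : ∀ a ∈ S, ∀ a' ∈ S, a ≠ a' → Disjoint (T a) (T a'))
    (hg : ∀ a ∈ S, ∀ s t : V → Bool, (∀ q ∈ T a, s q = t q) → g a s = g a t)
    (hs : ∀ a ∈ S, ∃ z, g a z = true) :
    cnt (fun z : V → Bool => ∀ a ∈ S, g a z = false) * (2 ^ b) ^ S.card ≤
      (2 ^ b - 1) ^ S.card * Nat.card (V → Bool) := by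
  rw [cnt_eq, Nat.card_eq_fintype_card]
  induction S using Finset.induction_on with
  | empty => simp
  | insert a S ha ih =>
    have ih' := ih (fun a' h => hT a' (mem_insert_of_mem h))
      (fun a' h a'' h' => hd a' (mem_insert_of_mem h) a'' (mem_insert_of_mem h'))
      (fun a' h => hg a' (mem_insert_of_mem h)) (fun a' h => hs a' (mem_insert_of_mem h))
    set E : Finset (V → Bool) := univ.filter (fun z : V → Bool => ∀ a ∈ S, g a z = false) with hE
    set E1 : Finset (V → Bool) := E.filter (fun z => g a z = true) with hE1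
    have hsplit : (univ.filter (fun z : V → Bool => ∀ a' ∈ insert a S, g a' z = false)).card +
        E1.card = E.card := by
      have h1 : (univ.filter (fun z : V → Bool => ∀ a' ∈ insert a S, g a' z = false)) =
          E.filter (fun z => ¬ g a z = true) := by
        ext z
        simp only [mem_filter, mem_univ, true_and, mem_insert, forall_eq_or_imp, hE,
          Bool.not_eq_true]
        tauto
      rw [h1, hE1, add_comm]
      exact Finset.card_filter_add_card_filter_not (s := E) (fun z => g a z = true)
    obtain ⟨σ, hσ⟩ := hs a (mem_insert_self _ _)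
    let F : (V → Bool) → (V → Bool) := fun z v => if v ∈ T a then σ v else z v
    have himg : E.image F ⊆ E1 := by
      intro z' hz'
      rw [mem_image] at hz'
      obtain ⟨z, hz, rfl⟩ := hz'
      rw [hE, mem_filter] at hz
      rw [hE1, mem_filter, hE, mem_filter]
      refine ⟨⟨mem_univ _, fun a' ha' => ?_⟩, ?_⟩
      · rw [← hz.2 a' ha']
        apply hg a' (mem_insert_of_mem ha')
        intro q hq
        have hne : a' ≠ a := fun h => ha (h ▸ ha')
        have hdis := hd a' (mem_insert_of_mem ha') a (mem_insert_self _ _) hne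
        have hq' : q ∉ T a := Finset.disjoint_left.mp hdis hq
        simp only [F, if_neg hq']
      · rw [← hσ]
        apply hg a (mem_insert_self _ _)
        intro q hq
        simp only [F, if_pos hq]
    have hfib : E.card ≤ 2 ^ (T a).card * (E.image F).card := by
      apply Finset.card_le_mul_card_image
      intro z' _
      have hinj : Set.InjOn (fun (z : V → Bool) => (fun q : T a => z q)) (E.filter (fun z => F z = z') : Finset (V → Bool)) := by
        intro z1 hz1 z2 hz2 h12
        rw [mem_coe, mem_filter] at hz1 hz2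
        funext v
        by_cases hv : v ∈ T a
        · exact congrFun h12 ⟨v, hv⟩
        · have h1 := congrFun hz1.2 v
          have h2 := congrFun hz2.2 v
          simp only [F, if_neg hv] at h1 h2
          rw [h1, h2]
      have h3 := Finset.card_le_card_of_injOn (t := (univ : Finset (T a → Bool)))
        (fun (z : V → Bool) => (fun q : T a => z q)) (fun z _ => mem_univ _) hinj
      rw [Finset.card_univ, Fintype.card_fun, Fintype.card_bool, Fintype.card_coe] at h3
      exact h3
    have hle : E.card ≤ 2 ^ b * E1.card := by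
      refine hfib.trans (Nat.mul_le_mul ?_ (Finset.card_le_card himg))
      exact Nat.pow_le_pow_right (by norm_num) (hT a (mem_insert_self _ _))
    rw [Finset.card_insert_of_notMem ha]
    set c := (univ.filter (fun z : V → Bool => ∀ a' ∈ insert a S, g a' z = false)).card with hc
    have hkey : c * 2 ^ b ≤ (2 ^ b - 1) * E.card := by
      have h1 : 1 ≤ 2 ^ b := Nat.one_le_two_pow
      obtain ⟨N, hN⟩ : ∃ N, 2 ^ b = N + 1 := ⟨2 ^ b - 1, by omega⟩
      rw [hN] at hle ⊢
      simp only [Nat.add_sub_cancel]
      have h2 : c = E.card - E1.card := by omega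
      have h3 : E1.card ≤ E.card := by omega
      obtain ⟨d, hd'⟩ := Nat.exists_eq_add_of_le h3
      have h4 : c = d := by omega
      rw [h4, hd']
      rw [hd'] at hle
      nlinarith
    calc c * (2 ^ b) ^ (S.card + 1) = (c * 2 ^ b) * (2 ^ b) ^ S.card := by ring
      _ ≤ ((2 ^ b - 1) * E.card) * (2 ^ b) ^ S.card := Nat.mul_le_mul_right _ hkey
      _ = (2 ^ b - 1) * (E.card * (2 ^ b) ^ S.card) := by ring
      _ ≤ (2 ^ b - 1) * ((2 ^ b - 1) ^ S.card * Fintype.card (V → Bool)) :=
          Nat.mul_le_mul_left _ ih'
      _ = (2 ^ b - 1) ^ (S.card + 1) * Fintype.card (V → Bool) := by ring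

/-- Either there are `M` disjoint sets of the family, or a small set meets all of them. -/
theorem disjoint_or_hitting {V ι : Type} (b : ℕ) (T : ι → Finset V) (hT : ∀ a, (T a).card ≤ b)
    (hne : ∀ a, (T a).Nonempty) (M : ℕ) :
    (∃ S : Finset ι, S.card = M ∧ ∀ a ∈ S, ∀ a' ∈ S, a ≠ a' → Disjoint (T a) (T a')) ∨
    (∃ H : Finset V, H.card ≤ b * M ∧ ∀ a, ¬ Disjoint (T a) H) := by
  induction M with
  | zero => left; exact ⟨∅, by simp, by simp⟩
  | succ M ih =>
    rcases ih with ⟨S, hS, hd⟩ | ⟨H, hH, hall⟩
    · by_cases hall : ∀ a, ¬ Disjoint (T a) (S.biUnion T)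
      · right
        refine ⟨S.biUnion T, ?_, hall⟩
        calc (S.biUnion T).card ≤ ∑ a ∈ S, (T a).card := Finset.card_biUnion_le
          _ ≤ ∑ a ∈ S, b := Finset.sum_le_sum (fun a _ => hT a)
          _ = b * M := by rw [Finset.sum_const, hS, smul_eq_mul, mul_comm]
          _ ≤ b * (M + 1) := Nat.mul_le_mul_left _ (Nat.le_succ _)
      · left
        push Not at hall
        obtain ⟨a, ha⟩ := hall
        rw [Finset.disjoint_biUnion_right] at ha
        have haS : a ∉ S := by
          intro h
          have h1 := ha a h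
          rw [disjoint_self] at h1
          exact (hne a).ne_empty h1
        refine ⟨insert a S, by rw [Finset.card_insert_of_notMem haS, hS], ?_⟩
        intro a1 h1 a2 h2 hne'
        rw [mem_insert] at h1 h2
        rcases h1 with rfl | h1
        · rcases h2 with rfl | h2
          · exact absurd rfl hne'
          · exact ha a2 h2
        · rcases h2 with rfl | h2
          · exact (ha a1 h1).symm
          · exact hd a1 h1 a2 h2 hne'
    · right
      exact ⟨H, hH.trans (Nat.mul_le_mul_left _ (Nat.le_succ _)), hall⟩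

end counting

end Pool.Agent.V5helper73.OA
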