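import Mathlib

/-!
# Circuits of constant depth
-/

set_option autoImplicit false

namespace Pool.Agent.V5helper73.OA

/-- A gate of unbounded fan-in with `s` possible inputs: the set `ins` contains the inputs, each with
a sign; `conj` says whether the gate is a conjunction or a disjunction of the literals. -/
structure Gate (s : ℕ) where
  conj : Bool
  ins : Finset (Fin s × Bool)

/-- The value of a gate. The literal `(h, true)` is the `h`-th input, and `(h, false)` is its
negation. -/
def Gate.eval {s : ℕ} (G : Gate s) (x : Fin s → Bool) : Bool :=
  if G.conj = true then decide (∀ p ∈ G.ins, x p.1 = p.2) else decide (∃ p ∈ G.ins, x p.1 = p.2)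

/-- Circuits of depth `k` with `s` gates in each layer, for Boolean variables `V`. The gates of layer
`0` are arbitrary functions of at most `t` variables each, and every gate of layer `i + 1` is a
conjunction or a disjunction, of unbounded fan-in, of gates of layer `i` and their negations. -/
structure Circuit (V : Type) (k s t : ℕ) where
  leaf : Fin s → (V → Bool) → Bool
  few : ∀ g, ∃ P : Finset V, P.card ≤ t ∧
    ∀ x y : V → Bool, (∀ v ∈ P, x v = y v) → leaf g x = leaf g y
  gate : Fin k → Fin s → Gate s

/-- The values of the gates of layer `i`. -/
def Circuit.layer {V : Type} {k s t : ℕ} (C : Circuit V k s t) (x : V → Bool) :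
    (i : ℕ) → i ≤ k → Fin s → Bool
  | 0, _ => fun g => C.leaf g x
  | i + 1, h => fun g => (C.gate ⟨i, h⟩ g).eval (C.layer x i (Nat.le_of_succ_le h))

/-- The values of the gates of the last layer. -/
def Circuit.eval {V : Type} {k s t : ℕ} (C : Circuit V k s t) (x : V → Bool) : Fin s → Bool :=
  C.layer x k le_rfl

end Pool.Agent.V5helper73.OA
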