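import Pool.Agent.V5helper73.OA.Circuit
import Pool.Agent.TH163.BO.Model

/-!
# Memory that is computed by circuits of constant depth
-/

set_option autoImplicit false

namespace Pool.Agent.V5helper73.OA

open Pool.Agent.TH163.BO (BVec BMat Alg)

/-- For all outcomes of the coins and all lists of earlier vectors there is a circuit of depth `k`
with `s` gates in each layer and with leaves that depend on at most `t` entries of the matrix, such
that every bit of every memory cell is the value of a gate of the last layer. -/
def Ac0Memory {n : ℕ} {Ω A : Type} {w : ℕ} (k s t : ℕ) (alg : Alg n Ω A (Fin w → Bool)) : Prop :=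
  ∀ (ω : Ω) (h : List (BVec n)), ∃ D : Circuit (Fin n × Fin n) k s t,
    ∀ (a : A) (b : Fin w), ∃ g : Fin s, ∀ M : BMat n,
      alg.mem ω M h a b = D.eval (fun p => M p.1 p.2) g

end Pool.Agent.V5helper73.OA
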