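import Pool.Agent.V5helper73.OA.Lower
import Pool.Agent.V5helper73.OA.Model

/-!
# The choice of the parameters
-/

set_option autoImplicit false

namespace Pool.Agent.V5helper73.OA

open Finset
open Pool.Agent.H699R2.OMV (Prog IsProb)
open Pool.Agent.TH163.BO (BVec BMat bmul Alg before)

theorem before_update {n : ℕ} (vs : Fin n → BVec n) (q : Fin n) (v : BVec n) :
    before (Function.update vs q v) q = before vs q := by
  unfold before
  apply List.ext_getElem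
  · simp
  · intro i h1 h2
    rw [List.getElem_take, List.getElem_take, List.getElem_ofFn, List.getElem_ofFn]
    rw [List.length_take] at h1
    have hi : i < q := lt_of_lt_of_le h1 (min_le_left _ _)
    rw [Function.update_of_ne]
    intro h
    have := congrArg Fin.val h
    simp at this
    omega

section

open Classical

/-- The core theorem with real exponents. -/
theorem core_real (k c : ℕ) (δ : ℝ) (hδ : 0 < δ) :
    ∃ η : ℝ, 0 < η ∧ ∃ n₀ : ℕ, ∀ n : ℕ, n₀ ≤ n →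
    ∀ (Ω A : Type) [Fintype Ω] (w : ℕ) (mem : Ω → BMat n → A → Fin w → Bool) (μ : Ω → ℝ),
    IsProb μ →
    (∀ ω, ∃ D : Circuit (Fin n × Fin n) k (n ^ c) ⌊(n : ℝ) ^ η⌋₊, ∀ a b, ∃ g, ∀ M : BMat n,
      mem ω M a b = D.eval (fun p => M p.1 p.2) g) →
    ∃ (M : BMat n) (v : BVec n), ∀ (P : Ω → Prog A (Fin w → Bool) (BVec n)) (ε : ℝ),
      (∀ (M' : BMat n) (r : Fin n),
        ∑ ω ∈ univ.filter (fun ω => (P ω).out (mem ω M') r ≠ bmul M' v r), μ ω ≤ 1 / 2 - ε) →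
      (n : ℝ) ^ (-(c : ℝ)) ≤ ε →
      ε * (n : ℝ) ^ (2 - δ) ≤ w * ∑ ω, μ ω * (((P ω).addrs (mem ω M)).length : ℝ) := by
  set d : ℕ := ⌈(2 * (k : ℝ) + 3) / δ⌉₊ + (k + 1) with hd
  have hdpos : 0 < d := by omega
  have hdR : (0 : ℝ) < d := by exact_mod_cast hdpos
  have hdδ : (2 * (k : ℝ) + 3) / d ≤ δ := by
    have h1 : (2 * (k : ℝ) + 3) / δ ≤ d := by
      refine (Nat.le_ceil _).trans ?_
      rw [hd]
      push_cast
      have : (0 : ℝ) ≤ k := by positivity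
      linarith
    rw [div_le_iff₀ hδ] at h1
    rw [div_le_iff₀ hdR]
    linarith
  obtain ⟨B, m0, hcore⟩ := core k (2 * d * c) (2 * d * c)
  refine ⟨1 / (4 * d), by positivity, (max (max m0 2) (4 * B)) ^ d, ?_⟩
  intro n hn Ω A _ w mem μ hμ hmem
  set m : ℕ := ⌊(n : ℝ) ^ (1 / (d : ℝ))⌋₊ with hm
  have hnpos : 0 < n := by
    have h1 : 1 ≤ (max (max m0 2) (4 * B)) ^ d := Nat.one_le_pow _ _ (by
      have : 2 ≤ max (max m0 2) (4 * B) := le_trans (le_max_right _ _) (le_max_left _ _)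
      omega)
    omega
  have hnR : (0 : ℝ) < n := by exact_mod_cast hnpos
  have hn1 : (1 : ℝ) ≤ n := by exact_mod_cast hnpos
  have hmge : max (max m0 2) (4 * B) ≤ m := by
    rw [hm]
    apply Nat.le_floor
    have h1 : (((max (max m0 2) (4 * B)) ^ d : ℕ) : ℝ) ≤ n := by exact_mod_cast hn
    push_cast at h1
    have h2 : ((((max (max m0 2) (4 * B) : ℕ) : ℝ)) ^ d) ^ (1 / (d : ℝ)) ≤ (n : ℝ) ^ (1 / (d : ℝ)) := by
      apply Real.rpow_le_rpow (by positivity)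
      · push_cast
        exact h1
      · positivity
    rw [← Real.rpow_natCast, ← Real.rpow_mul (by positivity), mul_one_div_cancel hdR.ne',
      Real.rpow_one] at h2
    exact h2
  have hm0 : m0 ≤ m := le_trans (le_trans (le_max_left _ _) (le_max_left _ _)) hmge
  have hm2 : 2 ≤ m := le_trans (le_trans (le_max_right _ _) (le_max_left _ _)) hmge
  have hmB : 4 * B ≤ m := le_trans (le_max_right _ _) hmge
  have hmR : (2 : ℝ) ≤ m := by exact_mod_cast hm2
  have hmle : (m : ℝ) ≤ (n : ℝ) ^ (1 / (d : ℝ)) := Nat.floor_le (by positivity)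
  have hmlt : (n : ℝ) ^ (1 / (d : ℝ)) < m + 1 := Nat.lt_floor_add_one _
  have hmd : (m : ℝ) ^ d ≤ n := by
    calc (m : ℝ) ^ d ≤ ((n : ℝ) ^ (1 / (d : ℝ))) ^ d := pow_le_pow_left₀ (by positivity) hmle _
      _ = n := by
          rw [← Real.rpow_natCast, ← Real.rpow_mul hnR.le, one_div_mul_cancel hdR.ne',
            Real.rpow_one]
  have hnm : (n : ℝ) ≤ (m : ℝ) ^ (2 * d) := by
    calc (n : ℝ) = ((n : ℝ) ^ (1 / (d : ℝ))) ^ d := by
          rw [← Real.rpow_natCast, ← Real.rpow_mul hnR.le, one_div_mul_cancel hdR.ne',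
            Real.rpow_one]
      _ ≤ ((m : ℝ) ^ 2) ^ d := by
          apply pow_le_pow_left₀ (by positivity)
          nlinarith
      _ = (m : ℝ) ^ (2 * d) := by rw [← pow_mul]
  have hmdN : m ^ d ≤ n := by exact_mod_cast hmd
  have hnmN : n ≤ m ^ (2 * d) := by exact_mod_cast hnm
  have hmpos : 0 < m := by omega
  have hmk : m ^ (k + 1) ≤ n := (Nat.pow_le_pow_right hmpos (by omega)).trans hmdN
  set N : ℕ := n / m ^ (k + 1) with hN
  have hpowpos : 0 < m ^ (k + 1) := Nat.pow_pos hmpos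
  have hN1 : 1 ≤ N := (Nat.one_le_div_iff hpowpos).mpr hmk
  have hNle : N * m ^ (k + 1) ≤ n := Nat.div_mul_le_self _ _
  have hNlt : n < (N + 1) * m ^ (k + 1) := by
    rw [hN, mul_comm]
    exact Nat.lt_mul_div_succ n hpowpos
  have hs : n ^ c ≤ m ^ (2 * d * c) := by
    calc n ^ c ≤ (m ^ (2 * d)) ^ c := Nat.pow_le_pow_left hnmN _
      _ = m ^ (2 * d * c) := by rw [← pow_mul]
  have ht : ⌊(n : ℝ) ^ (1 / (4 * (d : ℝ)))⌋₊ ^ 2 ≤ m := by
    have h1 : (⌊(n : ℝ) ^ (1 / (4 * (d : ℝ)))⌋₊ : ℝ) ≤ (n : ℝ) ^ (1 / (4 * (d : ℝ))) :=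
      Nat.floor_le (by positivity)
    have h2 : ((n : ℝ) ^ (1 / (4 * (d : ℝ)))) ^ 2 ≤ m := by
      rw [← Real.rpow_natCast, ← Real.rpow_mul hnR.le]
      calc (n : ℝ) ^ (1 / (4 * (d : ℝ)) * ((2 : ℕ) : ℝ)) ≤
            ((m : ℝ) ^ (2 * d)) ^ (1 / (4 * (d : ℝ)) * ((2 : ℕ) : ℝ)) :=
            Real.rpow_le_rpow hnR.le hnm (by positivity)
        _ = (m : ℝ) := by
            rw [← Real.rpow_natCast, ← Real.rpow_mul (by positivity)]
            have : (((2 * d : ℕ) : ℝ)) * (1 / (4 * (d : ℝ)) * ((2 : ℕ) : ℝ)) = 1 := by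
              push_cast
              field_simp
              norm_num
            rw [this, Real.rpow_one]
    have h3 : ((⌊(n : ℝ) ^ (1 / (4 * (d : ℝ)))⌋₊ ^ 2 : ℕ) : ℝ) ≤ m := by
      push_cast
      calc (⌊(n : ℝ) ^ (1 / (4 * (d : ℝ)))⌋₊ : ℝ) ^ 2 ≤ ((n : ℝ) ^ (1 / (4 * (d : ℝ)))) ^ 2 :=
            pow_le_pow_left₀ (by positivity) h1 _
        _ ≤ m := h2
    exact_mod_cast h3
  obtain ⟨M, v, h⟩ := hcore m hm0 N n hN1 hNle (n ^ c) _ hs ht Ω A w mem μ hμ hmem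
  refine ⟨M, v, fun P ε hP hε => ?_⟩
  have hεpos : 0 < ε := lt_of_lt_of_le (by positivity) hε
  have h1 := h P ε hP ?_
  · set E := ∑ ω, μ ω * (((P ω).addrs (mem ω M)).length : ℝ) with hE
    have hEnn : 0 ≤ E := Finset.sum_nonneg (fun ω _ => mul_nonneg (hμ.nonneg ω) (by positivity))
    have hwE : 0 ≤ (w : ℝ) * E := by positivity
    have hN2 : (n : ℝ) ≤ 2 * N * (m : ℝ) ^ (k + 1) := by
      have : (n : ℝ) < (N + 1) * (m : ℝ) ^ (k + 1) := by exact_mod_cast hNlt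
      have hN1' : (1 : ℝ) ≤ N := by exact_mod_cast hN1
      have hp : (0 : ℝ) < (m : ℝ) ^ (k + 1) := by positivity
      nlinarith
    have h2 : ε * (n : ℝ) ^ 2 ≤ (m : ℝ) ^ (2 * k + 3) * (w * E) := by
      calc ε * (n : ℝ) ^ 2 ≤ ε * (2 * N * (m : ℝ) ^ (k + 1)) ^ 2 := by
            apply mul_le_mul_of_nonneg_left _ hεpos.le
            exact pow_le_pow_left₀ hnR.le hN2 2
        _ = 4 * (m : ℝ) ^ (2 * k + 2) * (ε * (N : ℝ) ^ 2) := by ring
        _ ≤ 4 * (m : ℝ) ^ (2 * k + 2) * (B * (w * E)) := by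
            apply mul_le_mul_of_nonneg_left h1 (by positivity)
        _ = (4 * B) * ((m : ℝ) ^ (2 * k + 2) * (w * E)) := by ring
        _ ≤ m * ((m : ℝ) ^ (2 * k + 2) * (w * E)) := by
            apply mul_le_mul_of_nonneg_right _ (by positivity)
            exact_mod_cast hmB
        _ = (m : ℝ) ^ (2 * k + 3) * (w * E) := by ring
    have h3 : (m : ℝ) ^ (2 * k + 3) ≤ (n : ℝ) ^ δ := by
      calc (m : ℝ) ^ (2 * k + 3) ≤ ((n : ℝ) ^ (1 / (d : ℝ))) ^ (2 * k + 3) :=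
            pow_le_pow_left₀ (by positivity) hmle _
        _ = (n : ℝ) ^ ((2 * (k : ℝ) + 3) / d) := by
            rw [← Real.rpow_natCast, ← Real.rpow_mul hnR.le]
            congr 1
            push_cast
            ring
        _ ≤ (n : ℝ) ^ δ := Real.rpow_le_rpow_of_exponent_le hn1 hdδ
    have h4 : ε * (n : ℝ) ^ 2 ≤ (n : ℝ) ^ δ * (w * E) :=
      h2.trans (mul_le_mul_of_nonneg_right h3 hwE)
    have h5 : (n : ℝ) ^ (2 - δ) = (n : ℝ) ^ 2 / (n : ℝ) ^ δ := by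
      rw [Real.rpow_sub hnR, Real.rpow_two]
    rw [h5, ← mul_div_assoc, div_le_iff₀ (by positivity)]
    linarith
  · have h6 : (n : ℝ) ^ c ≤ (m : ℝ) ^ (2 * d * c) := by exact_mod_cast hs
    have h7 : (n : ℝ) ^ (-(c : ℝ)) * (n : ℝ) ^ c = 1 := by
      rw [← Real.rpow_natCast, ← Real.rpow_add hnR]
      simp
    calc (1 : ℝ) = (n : ℝ) ^ (-(c : ℝ)) * (n : ℝ) ^ c := h7.symm
      _ ≤ ε * (m : ℝ) ^ (2 * d * c) := by
          apply mul_le_mul hε h6 (by positivity) hεpos.le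

theorem main (k c : ℕ) (δ : ℝ) (hδ : 0 < δ) :
    ∃ η : ℝ, 0 < η ∧ ∃ n₀ : ℕ, ∀ n : ℕ, n₀ ≤ n →
    ∀ (Ω A : Type) [Fintype Ω] (w : ℕ) (alg : Alg n Ω A (Fin w → Bool)) (μ : Ω → ℝ) (ε : ℝ),
    IsProb μ → Ac0Memory k (n ^ c) ⌊(n : ℝ) ^ η⌋₊ alg → (n : ℝ) ^ (-(c : ℝ)) ≤ ε →
    (∀ (M : BMat n) (vs : Fin n → BVec n) (q r : Fin n),
      ∑ ω ∈ univ.filter (fun ω => alg.answer ω M vs q r ≠ bmul M (vs q) r), μ ω ≤ 1 / 2 - ε) →
    (∀ (vs : Fin n → BVec n) (q : Fin n), ∃ (M : BMat n) (v : BVec n),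
      ε * (n : ℝ) ^ (2 - δ) ≤
        w * ∑ ω, μ ω * ((alg.probes ω M (Function.update vs q v) q).length : ℝ)) ∧
    ((∀ ω M h, alg.mem ω M h = alg.mem ω M []) → ∃ (M : BMat n) (vs : Fin n → BVec n),
      ε * (n : ℝ) ^ (3 - δ) ≤ w * ∑ ω, μ ω * ∑ q, ((alg.probes ω M vs q).length : ℝ)) := by
  obtain ⟨η, hη, n₀, h⟩ := core_real k c δ hδ
  refine ⟨η, hη, max n₀ 1, ?_⟩
  intro n hn Ω A _ w alg μ ε hμ hmem hε herr
  have hn0 : n₀ ≤ n := (le_max_left _ _).trans hn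
  have hn1 : 1 ≤ n := (le_max_right _ _).trans hn
  constructor
  · intro vs q
    obtain ⟨M, v, h1⟩ := h n hn0 Ω A w (fun ω M a b => alg.mem ω M (before vs q) a b) μ hμ
      (fun ω => hmem ω (before vs q))
    refine ⟨M, v, ?_⟩
    have h2 := h1 (fun ω => alg.prog ω (before vs q) v) ε ?_ hε
    · unfold Alg.probes
      simp only [before_update, Function.update_self]
      exact h2
    · intro M' r
      have h3 := herr M' (Function.update vs q v) q r
      unfold Alg.answer at h3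
      simp only [before_update, Function.update_self] at h3
      exact h3
  · intro hstatic
    obtain ⟨M, v, h1⟩ := h n hn0 Ω A w (fun ω M a b => alg.mem ω M [] a b) μ hμ
      (fun ω => hmem ω [])
    refine ⟨M, fun _ => v, ?_⟩
    have h2 : ∀ q : Fin n, ε * (n : ℝ) ^ (2 - δ) ≤
        w * ∑ ω, μ ω * ((alg.probes ω M (fun _ => v) q).length : ℝ) := by
      intro q
      have h3 := h1 (fun ω => alg.prog ω (before (fun _ => v) q) v) ε ?_ hε
      · unfold Alg.probes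
        simp only [hstatic _ _ (before (fun _ => v) q)]
        exact h3
      · intro M' r
        have h4 := herr M' (fun _ => v) q r
        unfold Alg.answer at h4
        simp only [hstatic _ _ (before (fun _ => v) q)] at h4
        exact h4
    have h5 : ∑ q : Fin n, ε * (n : ℝ) ^ (2 - δ) ≤
        ∑ q : Fin n, w * ∑ ω, μ ω * ((alg.probes ω M (fun _ => v) q).length : ℝ) :=
      Finset.sum_le_sum (fun q _ => h2 q)
    rw [Finset.sum_const, Finset.card_univ, Fintype.card_fin, nsmul_eq_mul, ← Finset.mul_sum,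
      Finset.sum_comm] at h5
    have hnR : (0 : ℝ) < n := by exact_mod_cast hn1
    have h6 : (n : ℝ) ^ (3 - δ) = n * (n : ℝ) ^ (2 - δ) := by
      rw [show (3 - δ) = 1 + (2 - δ) by ring, Real.rpow_add hnR, Real.rpow_one]
    calc ε * (n : ℝ) ^ (3 - δ) = n * (ε * (n : ℝ) ^ (2 - δ)) := by rw [h6]; ring
      _ ≤ _ := h5
      _ = _ := by
          congr 1
          apply Finset.sum_congr rfl
          intro ω _
          rw [Finset.mul_sum]

end

end Pool.Agent.V5helper73.OA
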