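import Pool.Agent.V5helper73.OA.Multi
import Pool.Agent.TH163.BO.Model

/-!
# The lower bound for a fixed history
-/

set_option autoImplicit false

namespace Pool.Agent.V5helper73.OA

open Finset
open Pool.Agent.H699R2.OMV (Prog IsProb)
open Pool.Agent.TH163.BO (BVec BMat bmul)

theorem out_congr {A W O : Type} (P : Prog A W O) (m m' : A → W)
    (h : ∀ a ∈ P.addrs m, m a = m' a) : P.out m = P.out m' := by
  induction P with
  | done o => rfl
  | probe a k ih =>
    show (k (m a)).out m = (k (m' a)).out m'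
    have h1 : m a = m' a := h a (by
      show a ∈ a :: (k (m a)).addrs m
      exact List.mem_cons_self)
    rw [← h1]
    apply ih
    intro a' ha'
    apply h
    show a' ∈ a :: (k (m a)).addrs m
    exact List.mem_cons_of_mem _ ha'

theorem layer_vals {V : Type} {k s t : ℕ} (C : Circuit V k s t) (G : ℕ → Fin s → Gate s)
    (hG : ∀ (i : ℕ) (h : i < k) (g : Fin s), G i g = C.gate ⟨i, h⟩ g) (x : V → Bool) :
    ∀ (i : ℕ) (h : i ≤ k) (g : Fin s), C.layer x i h g = vals C.leaf G i g x := by
  intro i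
  induction i with
  | zero => intro h g; rfl
  | succ i ih =>
    intro h g
    show (C.gate ⟨i, h⟩ g).eval (C.layer x i (Nat.le_of_succ_le h)) =
      (G i g).eval (fun h => vals C.leaf G i h x)
    rw [hG i h g]
    congr 1
    funext g'
    exact ih _ g'

theorem vals_comp {V V' : Type} {s : ℕ} (F : Fin s → (V → Bool) → Bool)
    (G : ℕ → Fin s → Gate s) (φ : (V' → Bool) → (V → Bool)) :
    ∀ (i : ℕ) (g : Fin s) (u : V' → Bool),
      vals F G i g (φ u) = vals (fun g u => F g (φ u)) G i g u := by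
  intro i
  induction i with
  | zero => intro g u; rfl
  | succ i ih =>
    intro g u
    show (G i g).eval (fun h => vals F G i h (φ u)) = _
    have : (fun h => vals F G i h (φ u)) =
        (fun h => vals (fun g u => F g (φ u)) G i h u) := by
      funext h; exact ih h u
    rw [this]
    rfl

/-- The matrix with the entries `u` in the rows and columns given by `e`, and zeros elsewhere. -/
def emb {n : ℕ} {I : Type} (e : I → Fin n) (inv : Fin n → I) (u : I × I → Bool) : BMat n :=
  fun r c => decide (e (inv r) = r) && (decide (e (inv c) = c) && u (inv r, inv c))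

section

open Classical

/-- Some restriction is good for most of the outcomes of the coins. -/
theorem exists_good {R Ω : Type} [Finite R] [Nonempty R] [Fintype Ω] (μ : Ω → ℝ) (hμ : IsProb μ)
    (bad : Ω → R → Prop) (K : ℕ) (h : ∀ ω, cnt (bad ω) * K ≤ Nat.card R) :
    ∃ ρ : R, (∑ ω, μ ω * (if bad ω ρ then (1 : ℝ) else 0)) * K ≤ 1 := by
  have := Fintype.ofFinite R
  by_contra hcon
  push Not at hcon
  have hcard : (0 : ℝ) < Fintype.card R := by exact_mod_cast Fintype.card_pos
  have h1 : (Fintype.card R : ℝ) < ∑ ρ : R, (∑ ω, μ ω * (if bad ω ρ then (1 : ℝ) else 0)) * K := by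
    calc (Fintype.card R : ℝ) = ∑ ρ : R, (1 : ℝ) := by simp
      _ < _ := Finset.sum_lt_sum_of_nonempty Finset.univ_nonempty (fun ρ _ => hcon ρ)
  have h2 : ∑ ρ : R, (∑ ω, μ ω * (if bad ω ρ then (1 : ℝ) else 0)) * K =
      ∑ ω, μ ω * ((cnt (bad ω) : ℝ) * K) := by
    rw [← Finset.sum_mul, Finset.sum_comm, Finset.sum_mul]
    apply Finset.sum_congr rfl
    intro ω _
    rw [← Finset.mul_sum, mul_assoc]
    congr 2
    rw [cnt_eq, Finset.sum_ite, Finset.sum_const_zero, add_zero, Finset.sum_const, nsmul_eq_mul,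
      mul_one]
  have h3 : ∑ ω, μ ω * ((cnt (bad ω) : ℝ) * K) ≤ ∑ ω, μ ω * (Fintype.card R : ℝ) := by
    apply Finset.sum_le_sum
    intro ω _
    apply mul_le_mul_of_nonneg_left _ (hμ.nonneg ω)
    have := h ω
    rw [Nat.card_eq_fintype_card] at this
    exact_mod_cast this
  have h4 : ∑ ω, μ ω * (Fintype.card R : ℝ) = Fintype.card R := by
    rw [← Finset.sum_mul, hμ.sum_one, one_mul]
  linarith

instance instNonemptySp (m : ℕ) (X Y : Type) [Nonempty (Fin m)] (k : ℕ) :
    Nonempty (Sp m X Y k) := by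
  induction k with
  | zero => exact inferInstanceAs (Nonempty Unit)
  | succ k ih => exact inferInstanceAs (Nonempty (Stage (It m X k) (It m Y k) m × Sp m X Y k))

theorem three_le {x : ℝ} (hx : 0 ≤ x) {p1 p2 q : Prop} [Decidable p1] [Decidable p2]
    [Decidable q] (h : ¬ p1 → ¬ p2 → q) :
    x ≤ x * (if q then (1 : ℝ) else 0) + (if p1 then x else 0) + (if p2 then x else 0) := by
  by_cases h1 : p1
  · rw [if_pos h1]
    split_ifs <;> linarith
  · by_cases h2 : p2
    · rw [if_pos h2]
      split_ifs <;> linarith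
    · rw [if_pos (h h1 h2), if_neg h1, if_neg h2]
      linarith

theorem core (k c C : ℕ) : ∃ B m0 : ℕ, ∀ m, m0 ≤ m → ∀ N n : ℕ, 1 ≤ N → N * m ^ (k + 1) ≤ n →
    ∀ s t : ℕ, s ≤ m ^ c → t ^ 2 ≤ m →
    ∀ (Ω A : Type) [Fintype Ω] (w : ℕ) (mem : Ω → BMat n → A → Fin w → Bool) (μ : Ω → ℝ),
    IsProb μ →
    (∀ ω, ∃ D : Circuit (Fin n × Fin n) k s t, ∀ a b, ∃ g, ∀ M : BMat n,
      mem ω M a b = D.eval (fun p => M p.1 p.2) g) →
    ∃ (M : BMat n) (v : BVec n), ∀ (P : Ω → Prog A (Fin w → Bool) (BVec n)) (ε : ℝ),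
      (∀ (M' : BMat n) (r : Fin n),
        ∑ ω ∈ univ.filter (fun ω => (P ω).out (mem ω M') r ≠ bmul M' v r), μ ω ≤ 1 / 2 - ε) →
      1 ≤ ε * (m : ℝ) ^ C →
      ε * (N : ℝ) ^ 2 ≤ B * (w * ∑ ω, μ ω * (((P ω).addrs (mem ω M)).length : ℝ)) := by
  obtain ⟨B, m0, hB⟩ := multi_leaf k C c
  refine ⟨B, max 1 m0, ?_⟩
  intro m hm N n hN hNn s t hs ht Ω A _ w mem μ hμ hmem
  have hm1 : 1 ≤ m := (le_max_left _ _).trans hm
  have hm0 : m0 ≤ m := (le_max_right _ _).trans hm
  -- the embedding
  have hcard : Nat.card (It m (Fin N) (k + 1)) ≤ n := by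
    rw [card_It, Nat.card_eq_fintype_card, Fintype.card_fin]
    exact hNn
  have : Nonempty (Fin m) := ⟨⟨0, by omega⟩⟩
  have hne : Nonempty (It m (Fin N) (k + 1)) := by
    have h1 : Nonempty (Fin N) := ⟨⟨0, by omega⟩⟩
    have h2 : ∀ j, Nonempty (It m (Fin N) j) := by
      intro j
      induction j with
      | zero => exact h1
      | succ j ih => exact inferInstanceAs (Nonempty (It m (Fin N) j × Fin m))
    exact h2 _
  obtain ⟨e, he⟩ : ∃ e : It m (Fin N) (k + 1) → Fin n, Function.Injective e := by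
    have eq1 := Finite.equivFin (It m (Fin N) (k + 1))
    exact ⟨fun x => Fin.castLE hcard (eq1 x), fun x y h =>
      eq1.injective (Fin.castLE_injective hcard h)⟩
  set inv := Function.invFun e with hinv
  have hinve : ∀ x, inv (e x) = x := Function.leftInverse_invFun he
  choose D hD using hmem
  choose g hg using hD
  let G : Ω → ℕ → Fin s → Gate s := fun ω i j => if h : i < k then (D ω).gate ⟨i, h⟩ j else ⟨true, ∅⟩
  let F : Ω → Fin s → (It m (Fin N) (k + 1) × It m (Fin N) (k + 1) → Bool) → Bool :=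
    fun ω j u => (D ω).leaf j (fun p => emb e inv u p.1 p.2)
  have hF : ∀ ω j, Junta t (F ω j) := by
    intro ω j
    obtain ⟨P, hP1, hP2⟩ := (D ω).few j
    refine ⟨P.image (fun p => (inv p.1, inv p.2)), Finset.card_image_le.trans hP1, ?_⟩
    intro u u' huu
    apply hP2
    intro p hp
    unfold emb
    rw [huu (inv p.1, inv p.2) (Finset.mem_image_of_mem (fun p => (inv p.1, inv p.2)) hp)]
  have hval : ∀ ω (u : It m (Fin N) (k + 1) × It m (Fin N) (k + 1) → Bool) (a : A) (b : Fin w),
      mem ω (emb e inv u) a b = vals (F ω) (G ω) k (g ω a b) u := by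
    intro ω u a b
    rw [hg ω a b]
    unfold Circuit.eval
    rw [layer_vals (D ω) (G ω) (fun i h j => by simp only [G, dif_pos h])]
    exact vals_comp (D ω).leaf (G ω)
      (fun u (p : Fin n × Fin n) => emb e inv u p.1 p.2) k (g ω a b) u
  obtain ⟨ρ, hρ⟩ := exists_good (R := Sp m (Fin N) (Fin N) (k + 1)) μ hμ
    (fun ω ρ => ∃ j, ¬ Junta B (fun t => vals (F ω) (G ω) k j (subAll (k + 1) ρ t))) (m ^ C)
    (fun ω => hB m hm0 (Fin N) (Fin N) s t (G ω) (F ω) hs ht (hF ω))
  set Mt : (Fin N × Fin N → Bool) → BMat n := fun t => emb e inv (subAll (k + 1) ρ t) with hMt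
  set row : Fin N → Fin n := fun β => e (rowMap (k + 1) ρ β) with hrow
  set col : Fin N → Fin n := fun γ => e (colMap (k + 1) ρ γ) with hcol
  set v : BVec n := fun c => decide (∃ γ, col γ = c) with hv
  have hentry : ∀ t β γ, Mt t (row β) (col γ) = t (β, γ) := by
    intro t β γ
    simp only [hMt, emb, hrow, hcol, hinve, decide_true, Bool.true_and]
    exact subAll_map (k + 1) ρ t β γ
  have hbmul : ∀ t β, bmul (Mt t) v (row β) = decide (∃ γ, t (β, γ) = true) := by
    intro t β
    unfold bmul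
    rw [decide_eq_decide]
    constructor
    · rintro ⟨c, h1, h2⟩
      rw [hv] at h2
      obtain ⟨γ, rfl⟩ := of_decide_eq_true h2
      exact ⟨γ, by rw [← hentry t β γ]; exact h1⟩
    · rintro ⟨γ, h1⟩
      exact ⟨col γ, by rw [hentry]; exact h1, decide_eq_true ⟨γ, rfl⟩⟩
  refine ⟨Mt (fun _ => false), v, ?_⟩
  intro P ε hP hε
  set M0 := Mt (fun _ => false) with hM0
  let sg : Fin N × Fin N → (Fin N × Fin N → Bool) := fun q p => decide (p = q)
  -- the sets of places that are told apart
  let S : Ω → Finset (Fin N × Fin N) := fun ω => univ.filter (fun q =>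
    (P ω).out (mem ω M0) (row q.1) = false ∧ (P ω).out (mem ω (Mt (sg q))) (row q.1) = true)
  let bad : Ω → Prop := fun ω =>
    ∃ j, ¬ Junta B (fun t => vals (F ω) (G ω) k j (subAll (k + 1) ρ t))
  have hS : ∀ ω, ¬ bad ω → ((S ω).card : ℝ) ≤
      B * (w * (((P ω).addrs (mem ω M0)).length : ℝ)) := by
    intro ω hω
    simp only [bad] at hω
    push Not at hω
    choose Q hQ1 hQ2 using hω
    have hsub : S ω ⊆ ((P ω).addrs (mem ω M0)).toFinset.biUnion
        (fun a => (univ : Finset (Fin w)).biUnion (fun b => Q (g ω a b))) := by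
      intro q hq
      rw [mem_filter] at hq
      have h1 : ∃ a ∈ (P ω).addrs (mem ω M0), mem ω M0 a ≠ mem ω (Mt (sg q)) a := by
        by_contra hcon
        push Not at hcon
        have h2 := out_congr (P ω) _ _ hcon
        rw [h2] at hq
        rw [hq.2.1] at hq
        exact absurd hq.2.2 (by simp)
      obtain ⟨a, ha, hne⟩ := h1
      obtain ⟨b, hb⟩ : ∃ b, mem ω M0 a b ≠ mem ω (Mt (sg q)) a b := by
        by_contra hcon
        push Not at hcon
        exact hne (funext hcon)
      rw [mem_biUnion]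
      refine ⟨a, List.mem_toFinset.mpr ha, ?_⟩
      rw [mem_biUnion]
      refine ⟨b, mem_univ _, ?_⟩
      by_contra hqQ
      apply hb
      rw [hM0, hMt]
      simp only
      rw [hval, hval]
      apply hQ2
      intro q' hq'
      have hne' : q' ≠ q := fun h => hqQ (h ▸ hq')
      simp only [sg, decide_eq_false hne']
    have hc := Finset.card_le_card hsub
    have h3 : (((P ω).addrs (mem ω M0)).toFinset.biUnion
        (fun a => (univ : Finset (Fin w)).biUnion (fun b => Q (g ω a b)))).card ≤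
        ((P ω).addrs (mem ω M0)).length * (w * B) := by
      calc _ ≤ ∑ a ∈ ((P ω).addrs (mem ω M0)).toFinset,
            ((univ : Finset (Fin w)).biUnion (fun b => Q (g ω a b))).card :=
            Finset.card_biUnion_le
        _ ≤ ∑ a ∈ ((P ω).addrs (mem ω M0)).toFinset, w * B := by
            apply Finset.sum_le_sum
            intro a _
            calc _ ≤ ∑ b : Fin w, (Q (g ω a b)).card := Finset.card_biUnion_le
              _ ≤ ∑ b : Fin w, B := Finset.sum_le_sum (fun b _ => hQ1 _)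
              _ = w * B := by rw [Finset.sum_const, Finset.card_univ, Fintype.card_fin,
                  smul_eq_mul]
        _ = ((P ω).addrs (mem ω M0)).toFinset.card * (w * B) := by
            rw [Finset.sum_const, smul_eq_mul]
        _ ≤ _ := Nat.mul_le_mul_right _ (List.toFinset_card_le _)
    have h4 := hc.trans h3
    have h5 : ((S ω).card : ℝ) ≤ (((P ω).addrs (mem ω M0)).length : ℝ) * (w * B) := by
      exact_mod_cast h4
    calc ((S ω).card : ℝ) ≤ _ := h5
      _ = _ := by ring
  have hSN : ∀ ω, ((S ω).card : ℝ) ≤ (N : ℝ) ^ 2 := by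
    intro ω
    have : (S ω).card ≤ Fintype.card (Fin N × Fin N) := Finset.card_le_univ _
    rw [Fintype.card_prod, Fintype.card_fin] at this
    calc ((S ω).card : ℝ) ≤ ((N * N : ℕ) : ℝ) := by exact_mod_cast this
      _ = (N : ℝ) ^ 2 := by push_cast; ring
  -- lower bound for the expected size
  have hlow : ∀ q : Fin N × Fin N, 2 * ε ≤ ∑ ω, μ ω * (if q ∈ S ω then (1 : ℝ) else 0) := by
    intro q
    have h1 := hP M0 (row q.1)
    have h2 := hP (Mt (sg q)) (row q.1)
    rw [hM0, hbmul] at h1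
    rw [hbmul] at h2
    have e1 : decide (∃ γ, (fun _ => false : Fin N × Fin N → Bool) (q.1, γ) = true) = false := by
      simp
    have e2 : decide (∃ γ, sg q (q.1, γ) = true) = true := by
      rw [decide_eq_true_iff]
      exact ⟨q.2, by simp [sg]⟩
    rw [e1, ← hM0] at h1
    rw [e2] at h2
    rw [Finset.sum_filter] at h1 h2
    have h3 : (1 : ℝ) ≤ ∑ ω, (μ ω * (if q ∈ S ω then (1 : ℝ) else 0) +
        (if (P ω).out (mem ω M0) (row q.1) ≠ false then μ ω else 0) +
        (if (P ω).out (mem ω (Mt (sg q))) (row q.1) ≠ true then μ ω else 0)) := by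
      refine le_trans (le_of_eq hμ.sum_one.symm) ?_
      apply Finset.sum_le_sum
      intro ω _
      apply three_le (hμ.nonneg ω)
      intro c1 c2
      exact mem_filter.mpr ⟨mem_univ _, not_not.mp c1, not_not.mp c2⟩
    rw [Finset.sum_add_distrib, Finset.sum_add_distrib] at h3
    linarith
  have htot : 2 * ε * (N : ℝ) ^ 2 ≤ ∑ ω, μ ω * ((S ω).card : ℝ) := by
    have h1 : ∑ q : Fin N × Fin N, 2 * ε ≤
        ∑ q : Fin N × Fin N, ∑ ω, μ ω * (if q ∈ S ω then (1 : ℝ) else 0) :=
      Finset.sum_le_sum (fun q _ => hlow q)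
    rw [Finset.sum_const, Finset.card_univ, Fintype.card_prod, Fintype.card_fin, nsmul_eq_mul,
      Finset.sum_comm] at h1
    have h2 : ∀ ω, ∑ q : Fin N × Fin N, μ ω * (if q ∈ S ω then (1 : ℝ) else 0) =
        μ ω * ((S ω).card : ℝ) := by
      intro ω
      rw [← Finset.mul_sum]
      congr 1
      rw [Finset.sum_ite_mem, Finset.univ_inter, Finset.sum_const, nsmul_eq_mul, mul_one]
    rw [Finset.sum_congr rfl (fun ω _ => h2 ω)] at h1
    push_cast at h1
    nlinarith [h1]
  have hup : ∑ ω, μ ω * ((S ω).card : ℝ) ≤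
      B * (w * ∑ ω, μ ω * (((P ω).addrs (mem ω M0)).length : ℝ)) +
      (∑ ω, μ ω * (if bad ω then (1 : ℝ) else 0)) * (N : ℝ) ^ 2 := by
    rw [Finset.mul_sum, Finset.mul_sum, Finset.sum_mul, ← Finset.sum_add_distrib]
    apply Finset.sum_le_sum
    intro ω _
    have hn := hμ.nonneg ω
    by_cases hb : bad ω
    · rw [if_pos hb]
      have h1 := hSN ω
      have h2 : (0 : ℝ) ≤ (B : ℝ) * (w * (μ ω * (((P ω).addrs (mem ω M0)).length : ℝ))) := by
        positivity
      nlinarith
    · rw [if_neg hb]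
      have h1 := hS ω hb
      nlinarith
  have hbadle : (∑ ω, μ ω * (if bad ω then (1 : ℝ) else 0)) ≤ ε := by
    have hmpos : (0 : ℝ) < (m : ℝ) ^ C := by
      have : (0 : ℝ) < m := by exact_mod_cast hm1
      positivity
    have h1 : (∑ ω, μ ω * (if bad ω then (1 : ℝ) else 0)) * (m : ℝ) ^ C ≤ 1 := by
      have := hρ
      push_cast at this
      convert this
    by_contra hcon
    push Not at hcon
    have : ε * (m : ℝ) ^ C < (∑ ω, μ ω * (if bad ω then (1 : ℝ) else 0)) * (m : ℝ) ^ C :=
      mul_lt_mul_of_pos_right hcon hmpos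
    linarith
  have hN2 : (0 : ℝ) ≤ (N : ℝ) ^ 2 := by positivity
  nlinarith

end

end Pool.Agent.V5helper73.OA
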