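import Pool.Agent.V5helper73.OA.StageOr
import Pool.Agent.V5helper73.OA.Circuit

/-!
# Several stages
-/

set_option autoImplicit false

namespace Pool.Agent.V5helper73.OA

open Finset

theorem junta_not {V : Type} {B : ℕ} {f g : (V → Bool) → Bool} (h : ∀ u, g u = !(f u))
    (hf : Junta B f) : Junta B g := by
  obtain ⟨Q, h1, h2⟩ := hf
  exact ⟨Q, h1, fun s t hst => by rw [h, h, h2 s t hst]⟩

/-- One stage for a gate. -/
theorem stage_gate (b C : ℕ) : ∃ B m0 : ℕ, ∀ m, m0 ≤ m → ∀ (X Y : Type) [Finite X]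
    [Finite Y] (s : ℕ) (G : Gate s) (F : Fin s → ((X × Fin m) × (Y × Fin m) → Bool) → Bool),
    (∀ a, Junta b (F a)) →
    cnt (fun ρ : Stage X Y m => ¬ Junta B (fun t => G.eval (fun h => F h (sub ρ t)))) * m ^ C ≤
      Nat.card (Stage X Y m) := by
  obtain ⟨B, m0, h⟩ := stage_or b C
  refine ⟨B, m0, fun m hm X Y _ _ s G F hF => ?_⟩
  have := Fintype.ofFinite X
  have := Fintype.ofFinite Y
  by_cases hc : G.conj = true
  · -- conjunction
    have h1 := h m hm X Y {p : Fin s × Bool // p ∈ G.ins}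
      (fun p u => decide (F p.1.1 u ≠ p.1.2)) (fun u => !(G.eval (fun h => F h u))) ?_ ?_
    · refine le_trans (Nat.mul_le_mul_right _ (cnt_mono ?_)) h1
      intro ρ hρ hρ2
      exact hρ (junta_not (fun u => by simp) hρ2)
    · intro p
      obtain ⟨Q, hQ1, hQ2⟩ := hF p.1.1
      exact ⟨Q, hQ1, fun s t hst => by simp only [hQ2 s t hst]⟩
    · intro u
      unfold Gate.eval
      rw [if_pos hc, Bool.not_eq_true', decide_eq_false_iff_not]
      constructor
      · intro h
        push Not at h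
        obtain ⟨p, hp, hne⟩ := h
        exact ⟨⟨p, hp⟩, decide_eq_true hne⟩
      · rintro ⟨p, hne⟩ h
        exact of_decide_eq_true hne (h p.1 p.2)
  · have h1 := h m hm X Y {p : Fin s × Bool // p ∈ G.ins}
      (fun p u => decide (F p.1.1 u = p.1.2)) (fun u => G.eval (fun h => F h u)) ?_ ?_
    · exact h1
    · intro p
      obtain ⟨Q, hQ1, hQ2⟩ := hF p.1.1
      exact ⟨Q, hQ1, fun s t hst => by simp only [hQ2 s t hst]⟩
    · intro u
      unfold Gate.eval
      rw [if_neg hc]
      simp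

section

open Classical

/-- One stage for a function of few variables. -/
theorem stage_leaf (c : ℕ) {m : ℕ} (hm : 0 < m) {X Y : Type} [Finite X] [Finite Y] (t : ℕ)
    (ht : t ^ 2 ≤ m) (f : ((X × Fin m) × (Y × Fin m) → Bool) → Bool) (hf : Junta t f) :
    cnt (fun ρ : Stage X Y m => ¬ Junta ((2 * c) * (2 * c)) (fun t => f (sub ρ t))) * m ^ c ≤
      2 * Nat.card (Stage X Y m) := by
  have := Fintype.ofFinite X
  have := Fintype.ofFinite Y
  obtain ⟨P, hP1, hP2⟩ := hf
  refine le_trans (Nat.mul_le_mul_right _ (cnt_mono ?_))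
    (few_bound P c hm ((Nat.pow_le_pow_left hP1 2).trans ht))
  intro ρ hρ hfew
  apply hρ
  refine ⟨(P.filter (fun v => Star ρ v)).image (fun v => (v.1.1, v.2.1)),
    Finset.card_image_le.trans (card_star_le hfew), fun u u' huu => ?_⟩
  apply hP2
  intro v hv
  by_cases hs : Star ρ v
  · rw [sub_star hs, sub_star hs]
    apply huu
    rw [mem_image]
    exact ⟨v, mem_filter.mpr ⟨hv, hs⟩, rfl⟩
  · rw [sub_not_star hs, sub_not_star hs]

end

/-- The set `X × Fin m × ... × Fin m` (`k` factors `Fin m`). -/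
def It (m : ℕ) (X : Type) : ℕ → Type
  | 0 => X
  | k + 1 => It m X k × Fin m

instance instFiniteIt (m : ℕ) (X : Type) [Finite X] (k : ℕ) : Finite (It m X k) := by
  induction k with
  | zero => exact inferInstanceAs (Finite X)
  | succ k ih => exact inferInstanceAs (Finite (It m X k × Fin m))

theorem card_It (m : ℕ) (X : Type) [Finite X] (k : ℕ) :
    Nat.card (It m X k) = Nat.card X * m ^ k := by
  induction k with
  | zero => simp [It]
  | succ k ih =>
    have : Nat.card (It m X (k + 1)) = Nat.card (It m X k × Fin m) := rfl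
    rw [this, Nat.card_prod, ih, Nat.card_eq_fintype_card (α := Fin m), Fintype.card_fin, pow_succ,
      mul_assoc]

/-- `k` stages. -/
def Sp (m : ℕ) (X Y : Type) : ℕ → Type
  | 0 => Unit
  | k + 1 => Stage (It m X k) (It m Y k) m × Sp m X Y k

instance instFiniteSp (m : ℕ) (X Y : Type) [Finite X] [Finite Y] (k : ℕ) :
    Finite (Sp m X Y k) := by
  induction k with
  | zero => exact inferInstanceAs (Finite Unit)
  | succ k ih => exact inferInstanceAs (Finite (Stage (It m X k) (It m Y k) m × Sp m X Y k))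

/-- The matrix obtained from the matrix `t` of the remaining variables. -/
def subAll {m : ℕ} {X Y : Type} : (k : ℕ) → Sp m X Y k → (X × Y → Bool) →
    (It m X k × It m Y k → Bool)
  | 0, _, t => t
  | k + 1, ρ, t => sub ρ.1 (subAll k ρ.2 t)

/-- The rows that are chosen in all stages. -/
def rowMap {m : ℕ} {X Y : Type} : (k : ℕ) → Sp m X Y k → X → It m X k
  | 0, _, β => β
  | k + 1, ρ, β => (rowMap k ρ.2 β, ρ.1.1 (rowMap k ρ.2 β))

/-- The columns that are chosen in all stages. -/
def colMap {m : ℕ} {X Y : Type} : (k : ℕ) → Sp m X Y k → Y → It m Y k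
  | 0, _, γ => γ
  | k + 1, ρ, γ => (colMap k ρ.2 γ, ρ.1.2.1 (colMap k ρ.2 γ))

theorem subAll_map {m : ℕ} {X Y : Type} (k : ℕ) (ρ : Sp m X Y k) (t : X × Y → Bool) (β : X)
    (γ : Y) : subAll k ρ t (rowMap k ρ β, colMap k ρ γ) = t (β, γ) := by
  induction k with
  | zero => rfl
  | succ k ih =>
    show sub ρ.1 (subAll k ρ.2 t) (rowMap (k + 1) ρ β, colMap (k + 1) ρ γ) = t (β, γ)
    rw [sub_star]
    · exact ih ρ.2
    · exact ⟨rfl, rfl⟩

theorem rowMap_injective {m : ℕ} {X Y : Type} (k : ℕ) (ρ : Sp m X Y k) :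
    Function.Injective (rowMap k ρ) := by
  induction k with
  | zero => exact fun a b h => h
  | succ k ih =>
    intro a b h
    exact ih ρ.2 (congrArg Prod.fst h)

theorem colMap_injective {m : ℕ} {X Y : Type} (k : ℕ) (ρ : Sp m X Y k) :
    Function.Injective (colMap k ρ) := by
  induction k with
  | zero => exact fun a b h => h
  | succ k ih =>
    intro a b h
    exact ih ρ.2 (congrArg Prod.fst h)

/-- The values of the gates of layer `i`, for given functions in layer `0`. -/
def vals {V : Type} {s : ℕ} (F : Fin s → (V → Bool) → Bool) (G : ℕ → Fin s → Gate s) :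
    ℕ → Fin s → (V → Bool) → Bool
  | 0 => F
  | i + 1 => fun g u => (G i g).eval (fun h => vals F G i h u)

theorem vals_shift {V V' : Type} {s : ℕ} (F : Fin s → (V → Bool) → Bool)
    (G : ℕ → Fin s → Gate s) (φ : (V' → Bool) → (V → Bool)) (i : ℕ) (g : Fin s)
    (u : V' → Bool) :
    vals F G (i + 1) g (φ u) =
      vals (fun g u => (G 0 g).eval (fun h => F h (φ u))) (fun j => G (j + 1)) i g u := by
  induction i generalizing g with
  | zero => rfl
  | succ i ih =>
    show (G (i + 1) g).eval (fun h => vals F G (i + 1) h (φ u)) = _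
    have h1 : (fun h => vals F G (i + 1) h (φ u)) = (fun h =>
      vals (fun g u => (G 0 g).eval (fun h => F h (φ u))) (fun j => G (j + 1)) i h u) := by
      funext h
      exact ih h
    rw [h1]
    rfl

/-- Two steps of a union bound. -/
theorem cnt_pair {α β : Type} [Finite α] [Finite β] (p : α → Prop) (q : α → β → Prop) (K : ℕ)
    (hp : cnt p * K ≤ Nat.card α) (hq : ∀ a, ¬ p a → cnt (q a) * K ≤ Nat.card β) :
    cnt (fun ab : α × β => p ab.1 ∨ q ab.1 ab.2) * K ≤ 2 * Nat.card (α × β) := by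
  have h1 : cnt (fun ab : α × β => p ab.1) * K ≤ 1 * Nat.card (α × β) := by
    apply card_fiber'
    intro b
    rw [one_mul]
    exact hp
  have h2 : cnt (fun ab : α × β => ¬ p ab.1 ∧ q ab.1 ab.2) * K ≤ 1 * Nat.card (α × β) := by
    apply card_fiber
    intro a
    rw [one_mul]
    by_cases ha : p a
    · rw [cnt_zero]
      · rw [zero_mul]; exact Nat.zero_le _
      · intro b hb; exact hb.1 ha
    · refine le_trans (Nat.mul_le_mul_right _ (cnt_mono ?_)) (hq a ha)
      intro b hb; exact hb.2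
  have h3 : cnt (fun ab : α × β => p ab.1 ∨ q ab.1 ab.2) ≤
      cnt (fun ab : α × β => p ab.1) + cnt (fun ab : α × β => ¬ p ab.1 ∧ q ab.1 ab.2) := by
    refine le_trans (cnt_mono ?_) (cnt_or _ _)
    intro ab hab
    by_cases ha : p ab.1
    · left; exact ha
    · right
      rcases hab with h | h
      · exact absurd h ha
      · exact ⟨ha, h⟩
  calc _ ≤ _ := Nat.mul_le_mul_right _ h3
    _ ≤ _ := by rw [add_mul, two_mul]; rw [one_mul] at h1 h2; exact Nat.add_le_add h1 h2

theorem half_bound {m C a K : ℕ} (hm : 2 ≤ m) (h : a * m ^ (C + 1) ≤ 2 * K) :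
    a * m ^ C ≤ K := by
  have h1 : (a * m ^ C) * m ≤ 2 * K := by
    calc (a * m ^ C) * m = a * m ^ (C + 1) := by ring
      _ ≤ _ := h
  have h2 : (a * m ^ C) * 2 ≤ (a * m ^ C) * m := Nat.mul_le_mul_left _ hm
  omega

/-- `k` stages for a circuit with `k` layers of gates over juntas. -/
theorem multi (k : ℕ) : ∀ b C c : ℕ, ∃ B m0 : ℕ, ∀ m, m0 ≤ m → ∀ (X Y : Type) [Finite X]
    [Finite Y] (s : ℕ) (G : ℕ → Fin s → Gate s)
    (F : Fin s → (It m X k × It m Y k → Bool) → Bool), s ≤ m ^ c → (∀ a, Junta b (F a)) →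
    cnt (fun ρ : Sp m X Y k => ∃ g, ¬ Junta B (fun t => vals F G k g (subAll k ρ t))) * m ^ C ≤
      Nat.card (Sp m X Y k) := by
  induction k with
  | zero =>
    intro b C c
    refine ⟨b, 0, fun m _ X Y _ _ s G F _ hF => ?_⟩
    rw [cnt_zero]
    · rw [zero_mul]; exact Nat.zero_le _
    · rintro ρ ⟨g, hg⟩
      exact hg (hF g)
  | succ k ih =>
    intro b C c
    obtain ⟨B1, m1, h1⟩ := stage_gate b (C + 1 + c)
    obtain ⟨B2, m2, h2⟩ := ih B1 (C + 1) c
    refine ⟨B2, max 2 (max m1 m2), fun m hm X Y _ _ s G F hs hF => ?_⟩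
    have hm0 : 2 ≤ m := (le_max_left _ _).trans hm
    have hm1 : m1 ≤ m := ((le_max_left _ _).trans (le_max_right _ _)).trans hm
    have hm2 : m2 ≤ m := ((le_max_right _ _).trans (le_max_right _ _)).trans hm
    apply half_bound hm0
    have hp : cnt (fun ρ : Stage (It m X k) (It m Y k) m =>
        ∃ g, ¬ Junta B1 (fun t => (G 0 g).eval (fun h => F h (sub ρ t)))) * m ^ (C + 1) ≤
        Nat.card (Stage (It m X k) (It m Y k) m) := by
      have hpos : 0 < m ^ c := Nat.pow_pos (by omega)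
      apply Nat.le_of_mul_le_mul_right _ hpos
      calc _ = cnt (fun ρ : Stage (It m X k) (It m Y k) m =>
            ∃ g, ¬ Junta B1 (fun t => (G 0 g).eval (fun h => F h (sub ρ t)))) *
            m ^ (C + 1 + c) := by rw [mul_assoc, ← pow_add]
        _ ≤ (∑ g, cnt (fun ρ : Stage (It m X k) (It m Y k) m =>
            ¬ Junta B1 (fun t => (G 0 g).eval (fun h => F h (sub ρ t))))) *
            m ^ (C + 1 + c) := Nat.mul_le_mul_right _ (cnt_exists _)
        _ = ∑ g, cnt (fun ρ : Stage (It m X k) (It m Y k) m =>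
            ¬ Junta B1 (fun t => (G 0 g).eval (fun h => F h (sub ρ t)))) *
            m ^ (C + 1 + c) := by rw [Finset.sum_mul]
        _ ≤ ∑ g : Fin s, Nat.card (Stage (It m X k) (It m Y k) m) := by
            apply Finset.sum_le_sum
            intro g _
            exact h1 m hm1 (It m X k) (It m Y k) s (G 0 g) F hF
        _ = s * Nat.card (Stage (It m X k) (It m Y k) m) := by
            rw [Finset.sum_const, Finset.card_univ, Fintype.card_fin, smul_eq_mul]
        _ ≤ m ^ c * Nat.card (Stage (It m X k) (It m Y k) m) := Nat.mul_le_mul_right _ hs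
        _ = _ := by ring
    have h3 := cnt_pair (α := Stage (It m X k) (It m Y k) m) (β := Sp m X Y k)
      (fun ρ => ∃ g, ¬ Junta B1 (fun t => (G 0 g).eval (fun h => F h (sub ρ t))))
      (fun ρ ρ' => ∃ g, ¬ Junta B2 (fun t =>
        vals (fun g u => (G 0 g).eval (fun h => F h (sub ρ u))) (fun j => G (j + 1)) k g
          (subAll k ρ' t))) (m ^ (C + 1)) hp ?_
    · refine le_trans (Nat.mul_le_mul_right _ ?_) h3
      refine cnt_mono (α := Stage (It m X k) (It m Y k) m × Sp m X Y k) ?_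
      rintro ρ ⟨g, hg⟩
      right
      refine ⟨g, fun hcon => hg ?_⟩
      obtain ⟨Q, hQ1, hQ2⟩ := hcon
      refine ⟨Q, hQ1, fun u u' huu => ?_⟩
      have h4 := hQ2 u u' huu
      show vals F G (k + 1) g (sub ρ.1 (subAll k ρ.2 u)) =
        vals F G (k + 1) g (sub ρ.1 (subAll k ρ.2 u'))
      rw [vals_shift F G (fun u => sub ρ.1 u), vals_shift F G (fun u => sub ρ.1 u)]
      exact h4
    · intro ρ hρ
      push Not at hρ
      exact h2 m hm2 X Y s (fun j => G (j + 1)) _ hs hρ

/-- `k + 1` stages for a circuit of depth `k`, whose leaves are arbitrary functions of `t` variables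
with `t ^ 2 ≤ m`. -/
theorem multi_leaf (k C c : ℕ) : ∃ B m0 : ℕ, ∀ m, m0 ≤ m → ∀ (X Y : Type) [Finite X]
    [Finite Y] (s t : ℕ) (G : ℕ → Fin s → Gate s)
    (F : Fin s → (It m X (k + 1) × It m Y (k + 1) → Bool) → Bool), s ≤ m ^ c → t ^ 2 ≤ m →
    (∀ a, Junta t (F a)) →
    cnt (fun ρ : Sp m X Y (k + 1) =>
      ∃ g, ¬ Junta B (fun t => vals F G k g (subAll (k + 1) ρ t))) * m ^ C ≤
      Nat.card (Sp m X Y (k + 1)) := by
  set c' := C + 1 + c + 1 with hc'
  obtain ⟨B2, m2, h2⟩ := multi k ((2 * c') * (2 * c')) (C + 1) c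
  refine ⟨B2, max 2 m2, fun m hm X Y _ _ s t G F hs ht hF => ?_⟩
  have hm0 : 2 ≤ m := (le_max_left _ _).trans hm
  have hm2 : m2 ≤ m := (le_max_right _ _).trans hm
  apply half_bound hm0
  have h1 : ∀ g, cnt (fun ρ : Stage (It m X k) (It m Y k) m =>
      ¬ Junta ((2 * c') * (2 * c')) (fun t => F g (sub ρ t))) * m ^ (C + 1 + c) ≤
      Nat.card (Stage (It m X k) (It m Y k) m) := by
    intro g
    exact half_bound hm0 (stage_leaf c' (by omega) t ht (F g) (hF g))
  have hp : cnt (fun ρ : Stage (It m X k) (It m Y k) m =>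
      ∃ g, ¬ Junta ((2 * c') * (2 * c')) (fun t => F g (sub ρ t))) * m ^ (C + 1) ≤
      Nat.card (Stage (It m X k) (It m Y k) m) := by
    have hpos : 0 < m ^ c := Nat.pow_pos (by omega)
    apply Nat.le_of_mul_le_mul_right _ hpos
    calc _ = cnt (fun ρ : Stage (It m X k) (It m Y k) m =>
          ∃ g, ¬ Junta ((2 * c') * (2 * c')) (fun t => F g (sub ρ t))) *
          m ^ (C + 1 + c) := by rw [mul_assoc, ← pow_add]
      _ ≤ (∑ g, cnt (fun ρ : Stage (It m X k) (It m Y k) m =>
          ¬ Junta ((2 * c') * (2 * c')) (fun t => F g (sub ρ t)))) *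
          m ^ (C + 1 + c) := Nat.mul_le_mul_right _ (cnt_exists _)
      _ = ∑ g, cnt (fun ρ : Stage (It m X k) (It m Y k) m =>
          ¬ Junta ((2 * c') * (2 * c')) (fun t => F g (sub ρ t))) *
          m ^ (C + 1 + c) := by rw [Finset.sum_mul]
      _ ≤ ∑ g : Fin s, Nat.card (Stage (It m X k) (It m Y k) m) :=
          Finset.sum_le_sum (fun g _ => h1 g)
      _ = s * Nat.card (Stage (It m X k) (It m Y k) m) := by
          rw [Finset.sum_const, Finset.card_univ, Fintype.card_fin, smul_eq_mul]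
      _ ≤ m ^ c * Nat.card (Stage (It m X k) (It m Y k) m) := Nat.mul_le_mul_right _ hs
      _ = _ := by ring
  have hv : ∀ (ρ : Stage (It m X k) (It m Y k) m) (i : ℕ) (g : Fin s)
      (u : It m X k × It m Y k → Bool),
      vals F G i g (sub ρ u) = vals (fun g u => F g (sub ρ u)) G i g u := by
    intro ρ i
    induction i with
    | zero => intro g u; rfl
    | succ i ih =>
      intro g u
      show (G i g).eval (fun h => vals F G i h (sub ρ u)) = _
      have : (fun h => vals F G i h (sub ρ u)) =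
          (fun h => vals (fun g u => F g (sub ρ u)) G i h u) := by
        funext h; exact ih h u
      rw [this]
      rfl
  have h3 := cnt_pair (α := Stage (It m X k) (It m Y k) m) (β := Sp m X Y k)
    (fun ρ => ∃ g, ¬ Junta ((2 * c') * (2 * c')) (fun t => F g (sub ρ t)))
    (fun ρ ρ' => ∃ g, ¬ Junta B2 (fun t =>
      vals (fun g u => F g (sub ρ u)) G k g (subAll k ρ' t))) (m ^ (C + 1)) hp ?_
  · refine le_trans (Nat.mul_le_mul_right _ ?_) h3
    refine cnt_mono (α := Stage (It m X k) (It m Y k) m × Sp m X Y k) ?_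
    rintro ρ ⟨g, hg⟩
    right
    refine ⟨g, fun hcon => hg ?_⟩
    obtain ⟨Q, hQ1, hQ2⟩ := hcon
    refine ⟨Q, hQ1, fun u u' huu => ?_⟩
    have h4 := hQ2 u u' huu
    show vals F G k g (sub ρ.1 (subAll k ρ.2 u)) = vals F G k g (sub ρ.1 (subAll k ρ.2 u'))
    rw [hv, hv]
    exact h4
  · intro ρ hρ
    push Not at hρ
    exact h2 m hm2 X Y s G _ hs hρ

end Pool.Agent.V5helper73.OA
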