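import Pool.Agent.V5helper73.OA.Basic

/-!
# One stage: a disjunction of juntas becomes a junta
-/

set_option autoImplicit false

namespace Pool.Agent.V5helper73.OA

open Finset

/-- The place `v` remains a variable. -/
def Star {X Y : Type} {m : ℕ} (ρ : Stage X Y m) (v : (X × Fin m) × (Y × Fin m)) : Prop :=
  ρ.1 v.1.1 = v.1.2 ∧ ρ.2.1 v.2.1 = v.2.2

section

open Classical

/-- Fewer than `r` of the rows of `P` and fewer than `r` of the columns of `P` are chosen. -/
def FewLines {X Y : Type} {m : ℕ} (ρ : Stage X Y m) (P : Finset ((X × Fin m) × (Y × Fin m)))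
    (r : ℕ) : Prop :=
  ((P.image Prod.fst).filter (fun l => ρ.1 l.1 = l.2)).card < r ∧
    ((P.image Prod.snd).filter (fun l => ρ.2.1 l.1 = l.2)).card < r

theorem sub_star {X Y : Type} {m : ℕ} {ρ : Stage X Y m} {v : (X × Fin m) × (Y × Fin m)}
    (h : Star ρ v) (t : X × Y → Bool) : sub ρ t v = t (v.1.1, v.2.1) := by
  have h' : ρ.1 v.1.1 = v.1.2 ∧ ρ.2.1 v.2.1 = v.2.2 := h
  unfold sub; rw [if_pos h']

theorem sub_not_star {X Y : Type} {m : ℕ} {ρ : Stage X Y m} {v : (X × Fin m) × (Y × Fin m)}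
    (h : ¬ Star ρ v) (t : X × Y → Bool) : sub ρ t v = ρ.2.2 v := by
  have h' : ¬ (ρ.1 v.1.1 = v.1.2 ∧ ρ.2.1 v.2.1 = v.2.2) := h
  unfold sub; rw [if_neg h']

theorem card_star_le {X Y : Type} {m : ℕ} {ρ : Stage X Y m}
    {P : Finset ((X × Fin m) × (Y × Fin m))} {r : ℕ} (h : FewLines ρ P r) :
    (P.filter (fun v => Star ρ v)).card ≤ r * r := by
  have hsub : P.filter (fun v => Star ρ v) ⊆
      ((P.image Prod.fst).filter (fun l => ρ.1 l.1 = l.2)) ×ˢ
      ((P.image Prod.snd).filter (fun l => ρ.2.1 l.1 = l.2)) := by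
    intro v hv
    rw [mem_filter] at hv
    rw [mem_product, mem_filter, mem_filter]
    exact ⟨⟨mem_image_of_mem _ hv.1, hv.2.1⟩, ⟨mem_image_of_mem _ hv.1, hv.2.2⟩⟩
  calc _ ≤ _ := Finset.card_le_card hsub
    _ = _ := Finset.card_product _ _
    _ ≤ r * r := Nat.mul_le_mul h.1.le h.2.le

theorem card_many_lines {X Y : Type} [Fintype X] [Fintype Y] {m : ℕ}
    (P : Finset ((X × Fin m) × (Y × Fin m))) (r : ℕ) :
    cnt (fun ρ : Stage X Y m => ¬ FewLines ρ P r) * m ^ r ≤
      2 * P.card ^ r * Nat.card (Stage X Y m) := by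
  have h1 : cnt (fun ρ : Stage X Y m =>
      r ≤ ((P.image Prod.fst).filter (fun l => ρ.1 l.1 = l.2)).card) * m ^ r ≤
      P.card ^ r * Nat.card (Stage X Y m) := by
    apply card_fiber'
    intro yz
    refine (card_many_star (P.image Prod.fst) r).trans ?_
    exact Nat.mul_le_mul_right _ (Nat.pow_le_pow_left Finset.card_image_le _)
  have h2 : cnt (fun ρ : Stage X Y m =>
      r ≤ ((P.image Prod.snd).filter (fun l => ρ.2.1 l.1 = l.2)).card) * m ^ r ≤
      P.card ^ r * Nat.card (Stage X Y m) := by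
    apply card_fiber
    intro x
    apply card_fiber'
    intro z
    refine (card_many_star (P.image Prod.snd) r).trans ?_
    exact Nat.mul_le_mul_right _ (Nat.pow_le_pow_left Finset.card_image_le _)
  have h3 : cnt (fun ρ : Stage X Y m => ¬ FewLines ρ P r) ≤
      cnt (fun ρ : Stage X Y m =>
        r ≤ ((P.image Prod.fst).filter (fun l => ρ.1 l.1 = l.2)).card) +
      cnt (fun ρ : Stage X Y m =>
        r ≤ ((P.image Prod.snd).filter (fun l => ρ.2.1 l.1 = l.2)).card) := by
    refine le_trans (cnt_mono ?_) (cnt_or _ _)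
    intro ρ hρ
    by_contra hcon
    push Not at hcon
    exact hρ ⟨hcon.1, hcon.2⟩
  calc _ ≤ _ := Nat.mul_le_mul_right _ h3
    _ ≤ _ := by rw [add_mul, mul_assoc 2, two_mul]; exact Nat.add_le_add h1 h2

theorem two_mul_pow_le (M : ℕ) (hM : 1 ≤ M) : 2 * M ^ (M + 1) ≤ (M + 1) ^ (M + 1) := by
  have h : ∀ k, M ^ k * (M + k) ≤ (M + 1) ^ k * M := by
    intro k
    induction k with
    | zero => simp
    | succ k ih =>
      calc M ^ (k + 1) * (M + (k + 1)) ≤ (M + 1) * (M ^ k * (M + k)) := by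
            have : M ^ (k + 1) * (M + (k + 1)) = M ^ k * (M * (M + (k + 1))) := by ring
            rw [this]
            have h2 : (M + 1) * (M ^ k * (M + k)) = M ^ k * ((M + 1) * (M + k)) := by ring
            rw [h2]
            apply Nat.mul_le_mul_left
            nlinarith
        _ ≤ (M + 1) * ((M + 1) ^ k * M) := Nat.mul_le_mul_left _ ih
        _ = (M + 1) ^ (k + 1) * M := by ring
  have h1 := h (M + 1)
  have h2 : (2 * M ^ (M + 1)) * M ≤ (M + 1) ^ (M + 1) * M := by
    calc (2 * M ^ (M + 1)) * M = M ^ (M + 1) * (2 * M) := by ring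
      _ ≤ M ^ (M + 1) * (M + (M + 1)) := Nat.mul_le_mul_left _ (by omega)
      _ ≤ _ := h1
  exact Nat.le_of_mul_le_mul_right h2 hM

theorem pow_pred_le (N J n' : ℕ) (hN : 1 ≤ N) (h : N * J ≤ n') :
    (N - 1) ^ n' * 2 ^ J ≤ N ^ n' := by
  obtain ⟨e, rfl⟩ := Nat.exists_eq_add_of_le h
  have h1 : 2 * (N - 1) ^ N ≤ N ^ N := by
    rcases Nat.lt_or_ge N 2 with h2 | h2
    · have : N = 1 := by omega
      subst this; simp
    · obtain ⟨M, rfl⟩ : ∃ M, N = M + 1 := ⟨N - 1, by omega⟩
      simp only [Nat.add_sub_cancel]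
      exact two_mul_pow_le M (by omega)
  calc (N - 1) ^ (N * J + e) * 2 ^ J = (2 * (N - 1) ^ N) ^ J * (N - 1) ^ e := by
        rw [pow_add, pow_mul, mul_pow]; ring
    _ ≤ (N ^ N) ^ J * N ^ e := Nat.mul_le_mul (Nat.pow_le_pow_left h1 _)
        (Nat.pow_le_pow_left (Nat.sub_le _ _) _)
    _ = N ^ (N * J + e) := by rw [pow_add, pow_mul]

/-- Case A: many disjoint terms. -/
theorem caseA {X Y ι : Type} [Fintype X] [Fintype Y] {m : ℕ} (b r J : ℕ)
    (T : ι → Finset ((X × Fin m) × (Y × Fin m)))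
    (g : ι → ((X × Fin m) × (Y × Fin m) → Bool) → Bool) (S : Finset ι)
    (hcard : r * r + 2 ^ b * J ≤ S.card)
    (hT : ∀ a ∈ S, (T a).card ≤ b)
    (hd : ∀ a ∈ S, ∀ a' ∈ S, a ≠ a' → Disjoint (T a) (T a'))
    (hg : ∀ a ∈ S, ∀ s t : (X × Fin m) × (Y × Fin m) → Bool,
      (∀ q ∈ T a, s q = t q) → g a s = g a t)
    (hs : ∀ a ∈ S, ∃ z, g a z = true) :
    cnt (fun ρ : Stage X Y m => FewLines ρ (S.biUnion T) r ∧
      ∀ a ∈ S, (∀ v ∈ T a, ¬ Star ρ v) → g a ρ.2.2 = false) * 2 ^ J ≤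
      1 * Nat.card (Stage X Y m) := by
  apply card_fiber
  intro x
  apply card_fiber
  intro y
  simp only [one_mul]
  by_cases hfew : FewLines ((x, (y, fun _ => false)) : Stage X Y m) (S.biUnion T) r
  · set ρ0 : Stage X Y m := (x, (y, fun _ => false)) with hρ0
    set S' := S.filter (fun a => ∀ v ∈ T a, ¬ Star ρ0 v) with hS'
    have hbad : (S.filter (fun a => ¬ ∀ v ∈ T a, ¬ Star ρ0 v)).card ≤ r * r := by
      refine le_trans ?_ (card_star_le hfew)
      have hch : ∀ a ∈ S.filter (fun a => ¬ ∀ v ∈ T a, ¬ Star ρ0 v), ∃ v ∈ T a, Star ρ0 v := by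
        intro a ha
        rw [mem_filter] at ha
        have := ha.2
        push Not at this
        exact this
      choose φ hφ1 hφ2 using hch
      rw [← Finset.card_attach]
      apply Finset.card_le_card_of_injOn (fun a => φ a.1 a.2)
      · intro a _
        have ha' : a.1 ∈ S := (mem_filter.mp a.2).1
        rw [mem_coe, mem_filter, mem_biUnion]
        exact ⟨⟨a.1, ha', hφ1 a.1 a.2⟩, hφ2 a.1 a.2⟩
      · intro a _ a' _ heq
        by_contra hne
        have hne' : a.1 ≠ a'.1 := fun h => hne (Subtype.ext h)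
        have h1 := hd a.1 (mem_filter.mp a.2).1 a'.1 (mem_filter.mp a'.2).1 hne'
        have heq' : φ a.1 a.2 = φ a'.1 a'.2 := heq
        exact Finset.disjoint_left.mp h1 (hφ1 a.1 a.2) (heq' ▸ hφ1 a'.1 a'.2)
    have hScard : 2 ^ b * J ≤ S'.card := by
      have h5 : S'.card + (S.filter (fun a => ¬ ∀ v ∈ T a, ¬ Star ρ0 v)).card = S.card := by
        rw [hS']
        convert Finset.card_filter_add_card_filter_not (s := S) (fun a => ∀ v ∈ T a, ¬ Star ρ0 v)
      omega
    have hsubS : ∀ a ∈ S', a ∈ S := fun a ha => (mem_filter.mp ha).1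
    have h1 := card_unsat b T g S' (fun a ha => hT a (hsubS a ha))
      (fun a ha a' ha' => hd a (hsubS a ha) a' (hsubS a' ha'))
      (fun a ha => hg a (hsubS a ha)) (fun a ha => hs a (hsubS a ha))
    have h2 := pow_pred_le (2 ^ b) J S'.card Nat.one_le_two_pow hScard
    have hle : cnt (fun z : (X × Fin m) × (Y × Fin m) → Bool =>
        FewLines ((x, (y, z)) : Stage X Y m) (S.biUnion T) r ∧
        ∀ a ∈ S, (∀ v ∈ T a, ¬ Star ((x, (y, z)) : Stage X Y m) v) → g a z = false) ≤
        cnt (fun z : (X × Fin m) × (Y × Fin m) → Bool => ∀ a ∈ S', g a z = false) := by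
      apply cnt_mono
      intro z hz a ha
      rw [hS', mem_filter] at ha
      exact hz.2 a ha.1 ha.2
    have hpos : 0 < (2 ^ b) ^ S'.card := by positivity
    apply Nat.le_of_mul_le_mul_right _ hpos
    calc _ ≤ cnt (fun z : (X × Fin m) × (Y × Fin m) → Bool => ∀ a ∈ S', g a z = false) *
          2 ^ J * (2 ^ b) ^ S'.card := by
          apply Nat.mul_le_mul_right
          apply Nat.mul_le_mul_right
          exact hle
      _ = (cnt (fun z : (X × Fin m) × (Y × Fin m) → Bool =>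
            ∀ a ∈ S', g a z = false) * (2 ^ b) ^ S'.card) * 2 ^ J := by ring
      _ ≤ ((2 ^ b - 1) ^ S'.card * Nat.card ((X × Fin m) × (Y × Fin m) → Bool)) * 2 ^ J :=
          Nat.mul_le_mul_right _ h1
      _ = ((2 ^ b - 1) ^ S'.card * 2 ^ J) * Nat.card ((X × Fin m) × (Y × Fin m) → Bool) := by
          ring
      _ ≤ (2 ^ b) ^ S'.card * Nat.card ((X × Fin m) × (Y × Fin m) → Bool) :=
          Nat.mul_le_mul_right _ h2
      _ = _ := by ring
  · have hempty : cnt (fun z : (X × Fin m) × (Y × Fin m) → Bool =>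
        FewLines ((x, (y, z)) : Stage X Y m) (S.biUnion T) r ∧
        ∀ a ∈ S, (∀ v ∈ T a, ¬ Star ((x, (y, z)) : Stage X Y m) v) → g a z = false) = 0 := by
      rw [cnt_eq, Finset.card_eq_zero]
      apply Finset.filter_eq_empty_iff.mpr
      intro z _ hz
      exact hfew hz.1
    rw [hempty, zero_mul]
    exact Nat.zero_le _

/-- The assignment `u`, with the values in `H` replaced by `κ`. -/
noncomputable def ovr {V : Type} {H : Finset V} (κ : H → Bool) (u : V → Bool) : V → Bool := fun v =>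
  if h : v ∈ H then κ ⟨v, h⟩ else u v

/-- Case B: a small set meets all terms. -/
theorem caseB {X Y : Type} {m : ℕ} {H : Finset ((X × Fin m) × (Y × Fin m))} {B' r : ℕ}
    {f : ((X × Fin m) × (Y × Fin m) → Bool) → Bool} {ρ : Stage X Y m} (hfew : FewLines ρ H r)
    (hgood : ∀ κ : H → Bool, Junta B' (fun t => f (ovr κ (sub ρ t)))) :
    Junta (r * r + 2 ^ (r * r) * B') (fun t => f (sub ρ t)) := by
  set Q0 : Finset (X × Y) := (H.filter (fun v => Star ρ v)).image (fun v => (v.1.1, v.2.1)) with hQ0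
  have hQ0card : Q0.card ≤ r * r := Finset.card_image_le.trans (card_star_le hfew)
  let ext : (Q0 → Bool) → X × Y → Bool := fun μ p => if h : p ∈ Q0 then μ ⟨p, h⟩ else false
  let κ' : (Q0 → Bool) → H → Bool := fun μ v => sub ρ (ext μ) v
  choose Qc hQc1 hQc2 using hgood
  refine ⟨Q0 ∪ (univ : Finset (Q0 → Bool)).biUnion (fun μ => Qc (κ' μ)), ?_, ?_⟩
  · refine (Finset.card_union_le _ _).trans (Nat.add_le_add hQ0card ?_)
    calc _ ≤ ∑ μ : Q0 → Bool, (Qc (κ' μ)).card := Finset.card_biUnion_le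
      _ ≤ ∑ μ : Q0 → Bool, B' := Finset.sum_le_sum (fun μ _ => hQc1 _)
      _ = 2 ^ Q0.card * B' := by
          rw [Finset.sum_const, Finset.card_univ, Fintype.card_fun, Fintype.card_bool,
            Fintype.card_coe, smul_eq_mul]
      _ ≤ 2 ^ (r * r) * B' := Nat.mul_le_mul_right _ (Nat.pow_le_pow_right (by norm_num) hQ0card)
  · intro s t hst
    let μ : Q0 → Bool := fun p => s p
    have hH : ∀ u : X × Y → Bool, (∀ q ∈ Q0, u q = s q) → ∀ v ∈ H, sub ρ u v = sub ρ (ext μ) v := by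
      intro u hu v hv
      by_cases hstar : Star ρ v
      · rw [sub_star hstar, sub_star hstar]
        have hmem : (v.1.1, v.2.1) ∈ Q0 := by
          rw [hQ0, mem_image]
          exact ⟨v, mem_filter.mpr ⟨hv, hstar⟩, rfl⟩
        rw [hu _ hmem]
        simp only [ext, dif_pos hmem, μ]
      · rw [sub_not_star hstar, sub_not_star hstar]
    have hovr : ∀ u : X × Y → Bool, (∀ q ∈ Q0, u q = s q) → sub ρ u = ovr (κ' μ) (sub ρ u) := by
      intro u hu
      funext v
      unfold ovr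
      split_ifs with hv
      · exact hH u hu v hv
      · rfl
    have hs0 := hovr s (fun _ _ => rfl)
    have ht0 := hovr t (fun q hq => (hst q (mem_union_left _ hq)).symm)
    show f (sub ρ s) = f (sub ρ t)
    rw [hs0, ht0]
    apply hQc2 (κ' μ) s t
    intro q hq
    apply hst
    apply mem_union_right
    rw [mem_biUnion]
    exact ⟨μ, mem_univ _, hq⟩

end

end Pool.Agent.V5helper73.OA
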