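import Pool.Agent.V5helper73.OA.Stage

/-!
# The stage theorem
-/

set_option autoImplicit false

namespace Pool.Agent.V5helper73.OA

open Finset

theorem cube_le_two_pow (k : ℕ) (hk : 10 ≤ k) : k ^ 3 ≤ 2 ^ k := by
  induction k, hk using Nat.le_induction with
  | base => norm_num
  | succ k hk ih =>
    have h1 : (k + 1) ^ 3 ≤ 2 * k ^ 3 := by
      obtain ⟨j, rfl⟩ : ∃ j, k = j + 10 := ⟨k - 10, by omega⟩
      ring_nf
      nlinarith [sq_nonneg j, Nat.zero_le (j ^ 3)]
    calc (k + 1) ^ 3 ≤ 2 * k ^ 3 := h1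
      _ ≤ 2 * 2 ^ k := Nat.mul_le_mul_left _ ih
      _ = 2 ^ (k + 1) := by ring

theorem exists_sq_le (A D : ℕ) : ∃ m0 : ℕ, ∀ m, m0 ≤ m → (A + D * Nat.clog 2 m) ^ 2 ≤ m := by
  set K := max 10 (2 * (A + D) ^ 2) with hK
  refine ⟨2 ^ K, fun m hm => ?_⟩
  set k := Nat.clog 2 m with hk
  have hKk : K ≤ k := by
    rw [hk]
    have h1 : Nat.clog 2 (2 ^ K) ≤ Nat.clog 2 m := Nat.clog_mono_right 2 hm
    rwa [Nat.clog_pow 2 K (by norm_num)] at h1
  have hk10 : 10 ≤ k := (le_max_left _ _).trans hKk
  have h2 : 2 * (A + D) ^ 2 ≤ k := (le_max_right _ _).trans hKk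
  have h3 : 2 ^ (k - 1) < m := by
    have hm1 : 1 < m := by
      have : 2 ^ 10 ≤ 2 ^ K := Nat.pow_le_pow_right (by norm_num) (le_max_left _ _)
      have : (2 : ℕ) ^ 10 = 1024 := by norm_num
      omega
    have := Nat.pow_pred_clog_lt_self (b := 2) (by norm_num) hm1
    simpa [Nat.pred_eq_sub_one] using this
  have h4 : (A + D * k) ^ 2 ≤ ((A + D) * k) ^ 2 := by
    apply Nat.pow_le_pow_left
    nlinarith [Nat.zero_le A, Nat.zero_le D]
  have h5 : 2 * ((A + D) * k) ^ 2 ≤ 2 ^ k := by
    calc 2 * ((A + D) * k) ^ 2 = (2 * (A + D) ^ 2) * k ^ 2 := by ring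
      _ ≤ k * k ^ 2 := Nat.mul_le_mul_right _ h2
      _ = k ^ 3 := by ring
      _ ≤ 2 ^ k := cube_le_two_pow k hk10
  have h6 : 2 ^ k = 2 * 2 ^ (k - 1) := by
    conv_lhs => rw [show k = (k - 1) + 1 by omega]
    ring
  omega

theorem cnt_zero {α : Type} (p : α → Prop) (h : ∀ a, ¬ p a) : cnt p = 0 := by
  unfold cnt
  have : IsEmpty {a // p a} := ⟨fun a => h a.1 a.2⟩
  exact Nat.card_of_isEmpty

section

open Classical

theorem few_bound {X Y : Type} [Fintype X] [Fintype Y] {m : ℕ}
    (P : Finset ((X × Fin m) × (Y × Fin m))) (c : ℕ) (hm : 0 < m) (hP : P.card ^ 2 ≤ m) :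
    cnt (fun ρ : Stage X Y m => ¬ FewLines ρ P (2 * c)) * m ^ c ≤
      2 * Nat.card (Stage X Y m) := by
  have h1 := card_many_lines P (2 * c)
  have hpos : 0 < m ^ c := Nat.pow_pos hm
  apply Nat.le_of_mul_le_mul_right _ hpos
  calc cnt (fun ρ : Stage X Y m => ¬ FewLines ρ P (2 * c)) * m ^ c * m ^ c =
      cnt (fun ρ : Stage X Y m => ¬ FewLines ρ P (2 * c)) * m ^ (2 * c) := by ring
    _ ≤ 2 * P.card ^ (2 * c) * Nat.card (Stage X Y m) := h1
    _ = 2 * (P.card ^ 2) ^ c * Nat.card (Stage X Y m) := by rw [pow_mul]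
    _ ≤ 2 * m ^ c * Nat.card (Stage X Y m) := by
        apply Nat.mul_le_mul_right
        apply Nat.mul_le_mul_left
        exact Nat.pow_le_pow_left hP _
    _ = 2 * Nat.card (Stage X Y m) * m ^ c := by ring

theorem final_bound {m C a K : ℕ} (hm : 2 ≤ m) (h : a * m ^ (C + 2) ≤ 3 * K) :
    a * m ^ C ≤ K := by
  have h1 : (a * m ^ C) * m ^ 2 ≤ 3 * K := by
    calc (a * m ^ C) * m ^ 2 = a * m ^ (C + 2) := by ring
      _ ≤ _ := h
  have h2 : 3 ≤ m ^ 2 := by nlinarith
  by_contra hcon
  push Not at hcon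
  have h3 : (K + 1) * 3 ≤ (a * m ^ C) * m ^ 2 := Nat.mul_le_mul hcon h2
  omega

theorem stage_or (b : ℕ) : ∀ C : ℕ, ∃ B m0 : ℕ, ∀ m, m0 ≤ m → ∀ (X Y : Type) [Fintype X]
    [Fintype Y] (ι : Type) (g : ι → ((X × Fin m) × (Y × Fin m) → Bool) → Bool)
    (f : ((X × Fin m) × (Y × Fin m) → Bool) → Bool), (∀ a, Junta b (g a)) →
    (∀ u, f u = true ↔ ∃ a, g a u = true) →
    cnt (fun ρ : Stage X Y m => ¬ Junta B (fun t => f (sub ρ t))) * m ^ C ≤
      Nat.card (Stage X Y m) := by
  induction b with
  | zero =>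
    intro C
    refine ⟨0, 0, ?_⟩
    intro m _ X Y _ _ ι g f hg hf
    rw [cnt_zero]
    · rw [zero_mul]; exact Nat.zero_le _
    · intro ρ hρ
      apply hρ
      refine ⟨∅, by simp, fun s t _ => ?_⟩
      have h1 : ∀ a, ∀ u u', g a u = g a u' := by
        intro a u u'
        obtain ⟨Q, hQ, hQ2⟩ := hg a
        have hQe : Q = ∅ := by
          rw [← Finset.card_eq_zero]; omega
        apply hQ2
        intro q hq
        rw [hQe] at hq
        simp at hq
      rw [Bool.eq_iff_iff, hf, hf]
      constructor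
      · rintro ⟨a, ha⟩; exact ⟨a, by rw [h1 a _ (sub ρ s)]; exact ha⟩
      · rintro ⟨a, ha⟩; exact ⟨a, by rw [h1 a _ (sub ρ t)]; exact ha⟩
  | succ b IH =>
    intro C
    set c := C + 2 with hc
    set r := 2 * c with hr
    set N := 2 ^ (b + 1) with hN
    set D := 2 * ((b + 1) * N * c) + 1 with hD
    obtain ⟨B', m1, hIH⟩ := IH (c + D)
    obtain ⟨m2, hm2⟩ := exists_sq_le ((b + 1) * (r * r)) ((b + 1) * (N * c))
    refine ⟨r * r + 2 ^ (r * r) * B', max (max m1 m2) (max 2 (2 ^ ((b + 1) * (r * r)))), ?_⟩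
    intro m hm X Y _ _ ι g f hg hf
    have hm1' : m1 ≤ m := le_trans (le_trans (le_max_left _ _) (le_max_left _ _)) hm
    have hm2' : m2 ≤ m := le_trans (le_trans (le_max_right _ _) (le_max_left _ _)) hm
    have hm3' : 2 ≤ m := le_trans (le_trans (le_max_left _ _) (le_max_right _ _)) hm
    have hm4' : 2 ^ ((b + 1) * (r * r)) ≤ m :=
      le_trans (le_trans (le_max_right _ _) (le_max_right _ _)) hm
    have hmpos : 0 < m := by omega
    apply final_bound hm3'
    set J := c * Nat.clog 2 m with hJ
    set M := r * r + N * J with hM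
    have hsq : ((b + 1) * M) ^ 2 ≤ m := by
      have := hm2 m hm2'
      calc ((b + 1) * M) ^ 2 = ((b + 1) * (r * r) + (b + 1) * (N * c) * Nat.clog 2 m) ^ 2 := by
            rw [hM, hJ]; ring
        _ ≤ m := this
    have hclog : m ≤ 2 ^ Nat.clog 2 m := Nat.le_pow_clog (by norm_num) m
    have hclog2 : 2 ^ Nat.clog 2 m ≤ m ^ 2 := by
      have h1 := Nat.pow_pred_clog_lt_self (b := 2) (by norm_num) (show 1 < m by omega)
      have h0 : 0 < Nat.clog 2 m := Nat.clog_pos (by norm_num) (by omega)
      have h2 : 2 ^ Nat.clog 2 m = 2 * 2 ^ (Nat.clog 2 m).pred := by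
        conv_lhs => rw [← Nat.succ_pred_eq_of_pos h0]
        rw [pow_succ]; ring
      rw [h2]
      nlinarith
    have h2J : m ^ c ≤ 2 ^ J := by
      rw [hJ, mul_comm, pow_mul]
      exact Nat.pow_le_pow_left hclog _
    choose T hT1 hT2 using hg
    by_cases htriv : ∃ a, (∃ z, g a z = true) ∧ T a = ∅
    · obtain ⟨a, ⟨z, hz⟩, hTa⟩ := htriv
      rw [cnt_zero]
      · rw [zero_mul]; exact Nat.zero_le _
      · intro ρ hρ
        apply hρ
        refine ⟨∅, by simp, fun s t _ => ?_⟩
        have h1 : ∀ u, f u = true := by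
          intro u
          rw [hf]
          refine ⟨a, ?_⟩
          rw [← hz]
          apply hT2
          rw [hTa]; simp
        show f (sub ρ s) = f (sub ρ t)
        rw [h1, h1]
    · push Not at htriv
      rcases disjoint_or_hitting (b + 1) (fun a : {a // ∃ z, g a z = true} => T a.1)
        (fun a => hT1 a.1) (fun a => htriv a.1 a.2) M with ⟨S, hS, hd⟩ | ⟨H, hH, hall⟩
      · -- case A
        have hP : (S.biUnion (fun a : {a // ∃ z, g a z = true} => T a.1)).card ≤ (b + 1) * M := by
          calc _ ≤ ∑ a ∈ S, (T a.1).card := Finset.card_biUnion_le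
            _ ≤ ∑ a ∈ S, (b + 1) := Finset.sum_le_sum (fun a _ => hT1 a.1)
            _ = (b + 1) * M := by rw [Finset.sum_const, hS, smul_eq_mul, mul_comm]
        have h1 := few_bound (X := X) (Y := Y)
          (S.biUnion (fun a : {a // ∃ z, g a z = true} => T a.1)) c hmpos
          ((Nat.pow_le_pow_left hP 2).trans hsq)
        have h2 := caseA (X := X) (Y := Y) (b + 1) r J
          (fun a : {a // ∃ z, g a z = true} => T a.1) (fun a => g a.1) S (by rw [hS])
          (fun a _ => hT1 a.1) hd (fun a _ => hT2 a.1) (fun a _ => a.2)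
        have h3 : cnt (fun ρ : Stage X Y m => ¬ Junta (r * r + 2 ^ (r * r) * B')
            (fun t => f (sub ρ t))) ≤
            cnt (fun ρ : Stage X Y m =>
              ¬ FewLines ρ (S.biUnion (fun a : {a // ∃ z, g a z = true} => T a.1)) r) +
            cnt (fun ρ : Stage X Y m =>
              FewLines ρ (S.biUnion (fun a : {a // ∃ z, g a z = true} => T a.1)) r ∧
              ∀ a ∈ S, (∀ v ∈ T a.1, ¬ Star ρ v) → g a.1 ρ.2.2 = false) := by
          refine le_trans (cnt_mono ?_) (cnt_or _ _)
          intro ρ hρ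
          by_contra hcon
          push Not at hcon
          obtain ⟨a, ha, hstar, hga⟩ := hcon.2 hcon.1
          apply hρ
          refine ⟨∅, by simp, fun s t _ => ?_⟩
          have h4 : ∀ t, f (sub ρ t) = true := by
            intro t
            rw [hf]
            refine ⟨a.1, ?_⟩
            have h5 : g a.1 (sub ρ t) = g a.1 ρ.2.2 := by
              apply hT2
              intro q hq
              exact sub_not_star (hstar q hq) t
            rw [h5]
            simpa using hga
          show f (sub ρ s) = f (sub ρ t)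
          rw [h4, h4]
        have h5 : cnt (fun ρ : Stage X Y m =>
              FewLines ρ (S.biUnion (fun a : {a // ∃ z, g a z = true} => T a.1)) r ∧
              ∀ a ∈ S, (∀ v ∈ T a.1, ¬ Star ρ v) → g a.1 ρ.2.2 = false) * m ^ c ≤
            Nat.card (Stage X Y m) := by
          refine (Nat.mul_le_mul_left _ h2J).trans ?_
          rw [one_mul] at h2
          exact h2
        calc _ ≤ _ := Nat.mul_le_mul_right _ h3
          _ ≤ 2 * Nat.card (Stage X Y m) + Nat.card (Stage X Y m) := by
              rw [add_mul]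
              exact Nat.add_le_add h1 h5
          _ = 3 * Nat.card (Stage X Y m) := by ring
      · -- case B
        have hHsq : H.card ^ 2 ≤ m := (Nat.pow_le_pow_left hH 2).trans hsq
        have h1 := few_bound (X := X) (Y := Y) H c hmpos hHsq
        have h2H : 2 ^ H.card ≤ m ^ D := by
          calc 2 ^ H.card ≤ 2 ^ ((b + 1) * M) := Nat.pow_le_pow_right (by norm_num) hH
            _ = 2 ^ ((b + 1) * (r * r)) * (2 ^ Nat.clog 2 m) ^ ((b + 1) * N * c) := by
                rw [hM, hJ, ← pow_mul, ← pow_add]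
                congr 1
                ring
            _ ≤ m * (m ^ 2) ^ ((b + 1) * N * c) :=
                Nat.mul_le_mul hm4' (Nat.pow_le_pow_left hclog2 _)
            _ = m ^ D := by
                rw [← pow_mul, hD, pow_succ, mul_comm]
        have h2 : ∀ κ : H → Bool, cnt (fun ρ : Stage X Y m =>
            ¬ Junta B' (fun t => f (ovr κ (sub ρ t)))) * m ^ (c + D) ≤
            Nat.card (Stage X Y m) := by
          intro κ
          refine hIH m hm1' X Y {a // ∃ z, g a z = true} (fun a u => g a.1 (ovr κ u))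
            (fun u => f (ovr κ u)) ?_ ?_
          · intro a
            refine ⟨T a.1 \ H, ?_, ?_⟩
            · have h3 := hall a
              rw [Finset.not_disjoint_iff] at h3
              obtain ⟨v, hv1, hv2⟩ := h3
              have h4 : T a.1 \ H ⊆ (T a.1).erase v := by
                intro q hq
                rw [mem_sdiff] at hq
                rw [mem_erase]
                exact ⟨fun h => hq.2 (h ▸ hv2), hq.1⟩
              have h5 := Finset.card_le_card h4
              rw [Finset.card_erase_of_mem hv1] at h5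
              have h6 := hT1 a.1
              omega
            · intro s t hst
              apply hT2
              intro q hq
              unfold ovr
              by_cases hqH : q ∈ H
              · rw [dif_pos hqH, dif_pos hqH]
              · rw [dif_neg hqH, dif_neg hqH]
                exact hst q (mem_sdiff.mpr ⟨hq, hqH⟩)
          · intro u
            rw [hf]
            constructor
            · rintro ⟨a, ha⟩; exact ⟨⟨a, ⟨_, ha⟩⟩, ha⟩
            · rintro ⟨a, ha⟩; exact ⟨a.1, ha⟩
        have h3 : cnt (fun ρ : Stage X Y m => ∃ κ : H → Bool,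
            ¬ Junta B' (fun t => f (ovr κ (sub ρ t)))) * m ^ c ≤ Nat.card (Stage X Y m) := by
          have hpos : 0 < m ^ D := Nat.pow_pos hmpos
          apply Nat.le_of_mul_le_mul_right _ hpos
          calc _ = cnt (fun ρ : Stage X Y m => ∃ κ : H → Bool,
                ¬ Junta B' (fun t => f (ovr κ (sub ρ t)))) * m ^ (c + D) := by
                rw [mul_assoc, ← pow_add]
            _ ≤ (∑ κ : H → Bool, cnt (fun ρ : Stage X Y m =>
                ¬ Junta B' (fun t => f (ovr κ (sub ρ t))))) * m ^ (c + D) :=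
                Nat.mul_le_mul_right _ (cnt_exists _)
            _ = ∑ κ : H → Bool, cnt (fun ρ : Stage X Y m =>
                ¬ Junta B' (fun t => f (ovr κ (sub ρ t)))) * m ^ (c + D) := by
                rw [Finset.sum_mul]
            _ ≤ ∑ κ : H → Bool, Nat.card (Stage X Y m) :=
                Finset.sum_le_sum (fun κ _ => h2 κ)
            _ = 2 ^ H.card * Nat.card (Stage X Y m) := by
                rw [Finset.sum_const, Finset.card_univ, Fintype.card_fun, Fintype.card_bool,
                  Fintype.card_coe, smul_eq_mul]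
            _ ≤ m ^ D * Nat.card (Stage X Y m) := Nat.mul_le_mul_right _ h2H
            _ = _ := by ring
        have h4 : cnt (fun ρ : Stage X Y m => ¬ Junta (r * r + 2 ^ (r * r) * B')
            (fun t => f (sub ρ t))) ≤
            cnt (fun ρ : Stage X Y m => ¬ FewLines ρ H r) +
            cnt (fun ρ : Stage X Y m => ∃ κ : H → Bool,
              ¬ Junta B' (fun t => f (ovr κ (sub ρ t)))) := by
          refine le_trans (cnt_mono ?_) (cnt_or _ _)
          intro ρ hρ
          by_contra hcon
          push Not at hcon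
          exact hρ (caseB hcon.1 hcon.2)
        calc _ ≤ _ := Nat.mul_le_mul_right _ h4
          _ ≤ 2 * Nat.card (Stage X Y m) + Nat.card (Stage X Y m) := by
              rw [add_mul]
              exact Nat.add_le_add h1 h3
          _ = 3 * Nat.card (Stage X Y m) := by ring

end

end Pool.Agent.V5helper73.OA
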